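import Pool.Agent.AKO.Near

set_option autoImplicit false

/-!
# Rooted certificates
-/

namespace Pool.Agent.AKO

open Finset Classical Filter Topology Pool.Agent.MP_0af329_co Pool.Agent.AK EuclideanGeometry

section cert

variable {ι R : Type*} [Fintype ι] [Fintype R]

/-- the certificate function: degree multipliers `u` (free point) and `w r` (roots), functions of
the first point, and positive semidefinite parts `P`, `T` -/
def GG (c : ℝ) (rt : R → ι) (N : ι → ι → ι → ℝ) (u : ι → ℝ) (w : R → ι → ℝ)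
    (P : ι → ι → ℝ) (T : ι → ι → ι → ℝ) (y1 y2 y3 : ι) : ℝ :=
  u y1 * (c - N y1 y2 y3) + ∑ r, w r y1 * (c - N (rt r) y2 y3) + P y1 y2 + T y1 y2 y3

/-- symmetrisation over the three free points -/
def sym3 (G : ι → ι → ι → ℝ) (y1 y2 y3 : ι) : ℝ :=
  G y1 y2 y3 + G y1 y3 y2 + G y2 y1 y3 + G y2 y3 y1 + G y3 y1 y2 + G y3 y2 y1

theorem sum_sym3 (G : ι → ι → ι → ℝ) :
    ∑ a, ∑ b, ∑ d, sym3 G a b d = 6 * ∑ a, ∑ b, ∑ d, G a b d := by
  have e1 : ∑ a, ∑ b, ∑ d, G a d b = ∑ a, ∑ b, ∑ d, G a b d :=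
    sum_congr rfl fun a _ => sum_comm
  have e2 : ∑ a, ∑ b, ∑ d, G b a d = ∑ a, ∑ b, ∑ d, G a b d := sum_comm
  have e3 : ∑ a, ∑ b, ∑ d, G b d a = ∑ a, ∑ b, ∑ d, G a b d := by
    rw [sum_comm]
    refine sum_congr rfl fun b _ => ?_
    exact sum_comm
  have e4 : ∑ a, ∑ b, ∑ d, G d a b = ∑ a, ∑ b, ∑ d, G a b d := by
    have : ∀ a, ∑ b, ∑ d, G d a b = ∑ d, ∑ b, G d a b := fun a => sum_comm
    rw [sum_congr rfl fun a _ => this a, sum_comm]
  have e5 : ∑ a, ∑ b, ∑ d, G d b a = ∑ a, ∑ b, ∑ d, G a b d := by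
    have : ∀ a, ∑ b, ∑ d, G d b a = ∑ d, ∑ b, G d b a := fun a => sum_comm
    rw [sum_congr rfl fun a _ => this a, sum_comm]
    refine sum_congr rfl fun d _ => ?_
    exact sum_comm
  unfold sym3
  simp only [sum_add_distrib]
  rw [e1, e2, e3, e4, e5]
  ring

/-- **Rooted certificate**: if all degrees are `lam n² ± η n²`, the multipliers have total weight at
least `1` at each point, the parts `P`, `T` have nonnegative sums, and the symmetrised certificate
function is `≤ 0` outside `E` and `≤ B` on `E`, then `(c - lam) n³ ≤ M η n³ + B |E| / 6`. -/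
theorem cert_bound (c lam η M B : ℝ) (rt : R → ι) (N : ι → ι → ι → ℝ) (u : ι → ℝ)
    (w : R → ι → ℝ) (P : ι → ι → ℝ) (T : ι → ι → ι → ℝ) (E : Finset (ι × ι × ι))
    (hη : 0 ≤ η) (hlam : lam ≤ c)
    (hdeg : ∀ v, |∑ p, ∑ q, N v p q - lam * (Fintype.card ι : ℝ) ^ 2| ≤
      η * (Fintype.card ι : ℝ) ^ 2)
    (hlow : ∀ y, 1 ≤ u y + ∑ r, w r y) (hup : ∀ y, |u y| + ∑ r, |w r y| ≤ M)
    (hP : 0 ≤ ∑ a, ∑ b, P a b) (hT : ∀ a, 0 ≤ ∑ b, ∑ d, T a b d)
    (hE : ∀ a b d, (a, b, d) ∉ E → sym3 (GG c rt N u w P T) a b d ≤ 0)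
    (hB : ∀ a b d, (a, b, d) ∈ E → sym3 (GG c rt N u w P T) a b d ≤ B) :
    (c - lam) * (Fintype.card ι : ℝ) ^ 3 ≤
      M * η * (Fintype.card ι : ℝ) ^ 3 + B * (E.card : ℝ) / 6 := by
  set n : ℝ := (Fintype.card ι : ℝ) with hn
  have hn0 : 0 ≤ n := Nat.cast_nonneg _
  -- upper bound
  have hup' : ∑ a, ∑ b, ∑ d, sym3 (GG c rt N u w P T) a b d ≤ B * (E.card : ℝ) := by
    have h1 : ∑ a, ∑ b, ∑ d, sym3 (GG c rt N u w P T) a b d =
        ∑ t : ι × ι × ι, sym3 (GG c rt N u w P T) t.1 t.2.1 t.2.2 := by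
      rw [Fintype.sum_prod_type]
      refine sum_congr rfl fun a _ => ?_
      rw [Fintype.sum_prod_type]
    rw [h1]
    have h2 : ∀ t : ι × ι × ι, sym3 (GG c rt N u w P T) t.1 t.2.1 t.2.2 ≤
        if t ∈ E then B else 0 := by
      rintro ⟨a, b, d⟩
      split_ifs with h
      · exact hB a b d h
      · exact hE a b d h
    refine (sum_le_sum fun t _ => h2 t).trans (le_of_eq ?_)
    rw [sum_ite_mem, univ_inter, sum_const, nsmul_eq_mul]
    ring
  -- lower bound
  have hlow' : ((c - lam) - M * η) * n ^ 3 ≤ ∑ a, ∑ b, ∑ d, GG c rt N u w P T a b d := by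
    have hN : ∀ v, ∑ b : ι, ∑ d : ι, (c - N v b d) = c * n ^ 2 - ∑ b, ∑ d, N v b d := by
      intro v
      simp only [sum_sub_distrib, sum_const, card_univ, nsmul_eq_mul]
      rw [← hn]
      ring
    have h1 : ∀ a, ∑ b, ∑ d, GG c rt N u w P T a b d =
        u a * (c * n ^ 2 - ∑ b, ∑ d, N a b d) +
        ∑ r, w r a * (c * n ^ 2 - ∑ b, ∑ d, N (rt r) b d) + n * ∑ b, P a b +
        ∑ b, ∑ d, T a b d := by
      intro a
      unfold GG
      simp only [sum_add_distrib]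
      congr 1
      congr 1
      · congr 1
        · rw [← hN, mul_sum]
          exact sum_congr rfl fun b _ => by rw [mul_sum]
        · have : ∀ b : ι, ∑ d : ι, ∑ r, w r a * (c - N (rt r) b d) =
              ∑ r, ∑ d : ι, w r a * (c - N (rt r) b d) := fun b => sum_comm
          rw [sum_congr rfl fun b _ => this b, sum_comm]
          refine sum_congr rfl fun r _ => ?_
          rw [← hN, mul_sum]
          exact sum_congr rfl fun b _ => by rw [mul_sum]
      · rw [mul_sum]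
        refine sum_congr rfl fun b _ => ?_
        rw [sum_const, card_univ, nsmul_eq_mul]
    have h2 : ∀ a, ((c - lam) - M * η) * n ^ 2 + n * ∑ b, P a b ≤
        ∑ b, ∑ d, GG c rt N u w P T a b d := by
      intro a
      rw [h1 a]
      have k1 : ∀ (z : ℝ) (v : ι), z * (c - lam) * n ^ 2 - |z| * (η * n ^ 2) ≤
          z * (c * n ^ 2 - ∑ b, ∑ d, N v b d) := by
        intro z v
        have e1 : z * (c * n ^ 2 - ∑ b, ∑ d, N v b d) = z * (c - lam) * n ^ 2 -
            z * (∑ b, ∑ d, N v b d - lam * n ^ 2) := by ring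
        have e2 : z * (∑ b, ∑ d, N v b d - lam * n ^ 2) ≤ |z| * (η * n ^ 2) := by
          refine (le_abs_self _).trans ?_
          rw [abs_mul]
          exact mul_le_mul_of_nonneg_left (hdeg v) (abs_nonneg _)
        rw [e1]
        linarith
      have k2 := k1 (u a) a
      have k3 : ∑ r, (w r a * (c - lam) * n ^ 2 - |w r a| * (η * n ^ 2)) ≤
          ∑ r, w r a * (c * n ^ 2 - ∑ b, ∑ d, N (rt r) b d) :=
        sum_le_sum fun r _ => k1 (w r a) (rt r)
      rw [sum_sub_distrib, ← sum_mul, ← sum_mul, ← sum_mul] at k3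
      have k4 := hT a
      have k5 : (c - lam) * n ^ 2 ≤ (u a + ∑ r, w r a) * ((c - lam) * n ^ 2) := by
        have : 0 ≤ (c - lam) * n ^ 2 := mul_nonneg (by linarith) (sq_nonneg n)
        nlinarith [hlow a]
      have k6 : (|u a| + ∑ r, |w r a|) * (η * n ^ 2) ≤ M * (η * n ^ 2) :=
        mul_le_mul_of_nonneg_right (hup a) (mul_nonneg hη (sq_nonneg n))
      nlinarith
    have h3 := sum_le_sum fun a (_ : a ∈ (univ : Finset ι)) => h2 a
    rw [sum_add_distrib, sum_const, card_univ, nsmul_eq_mul, ← hn, ← mul_sum] at h3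
    have h4 : 0 ≤ n * ∑ a, ∑ b, P a b := mul_nonneg hn0 hP
    have e : n * (((c - lam) - M * η) * n ^ 2) = ((c - lam) - M * η) * n ^ 3 := by ring
    linarith
  rw [sum_sym3] at hup'
  have e : ((c - lam) - M * η) * n ^ 3 = (c - lam) * n ^ 3 - M * η * n ^ 3 := by ring
  rw [e] at hlow'
  linarith

/-- sums of squares as the one-point part -/
theorem psd_P {K : Type*} [Fintype K] (d : K → ℝ) (hd : ∀ k, 0 ≤ d k) (g : K → ι → ℝ) :
    0 ≤ ∑ a, ∑ b, ∑ k, d k * (g k a * g k b) := by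
  have e : ∑ a, ∑ b, ∑ k, d k * (g k a * g k b) = ∑ k, d k * (∑ a, g k a) ^ 2 := by
    have h1 : ∀ a, ∑ b, ∑ k, d k * (g k a * g k b) = ∑ k, ∑ b, d k * (g k a * g k b) :=
      fun a => sum_comm
    rw [sum_congr rfl fun a _ => h1 a, sum_comm]
    refine sum_congr rfl fun k _ => ?_
    rw [sq, sum_mul_sum, mul_sum]
    refine sum_congr rfl fun a _ => ?_
    rw [mul_sum]
  rw [e]
  exact sum_nonneg fun k _ => mul_nonneg (hd k) (sq_nonneg _)

/-- positive semidefinite matrices on finitely many codes, one-point part -/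
theorem psd_code {A : Type*} [Fintype A] [DecidableEq A] (Q : A → A → ℝ)
    (hQ : ∀ z : A → ℝ, 0 ≤ ∑ a, ∑ b, Q a b * (z a * z b)) (f : ι → A) :
    0 ≤ ∑ y1, ∑ y2, Q (f y1) (f y2) := by
  have h := hQ fun a => (#{y : ι | f y = a} : ℝ)
  have e : ∑ y1, ∑ y2, Q (f y1) (f y2) =
      ∑ a, ∑ b, Q a b * ((#{y : ι | f y = a} : ℝ) * (#{y : ι | f y = b} : ℝ)) := by
    have h1 : ∀ g : A → ℝ, ∑ y : ι, g (f y) = ∑ a, (#{y : ι | f y = a} : ℝ) * g a := by
      intro g
      rw [← sum_fiberwise (s := univ) (g := f) (f := fun y => g (f y))]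
      refine sum_congr rfl fun a _ => ?_
      rw [sum_congr rfl (g := fun _ => g a), sum_const, nsmul_eq_mul]
      intro y hy
      rw [(mem_filter.1 hy).2]
    rw [h1 fun a => ∑ y2, Q a (f y2)]
    refine sum_congr rfl fun a _ => ?_
    rw [h1 (Q a), mul_sum]
    refine sum_congr rfl fun b _ => ?_
    ring
  rw [e]
  exact h

end cert


/-- the indicator of the non-acute triangles of `S` (distinct points) -/
noncomputable def Nf (S : Finset Pt) (v p q : S) : ℝ :=
  if v ≠ p ∧ p ≠ q ∧ v ≠ q ∧ NA (X S) (Y S) v p q then 1 else 0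

theorem sum_Nf (S : Finset Pt) (v : S) :
    ∑ p, ∑ q, Nf S v p q = dg S (Set.Ici (Real.pi / 2)) v.1 := by
  rw [dg_eq, card_filter]
  push_cast
  rw [Fintype.sum_prod_type]
  rfl

/-- the assumption on `S` under which all certificates are used -/
structure Near (S : Finset Pt) (η : ℝ) : Prop where
  gen : GenPos S
  nr : NoRight S
  deg : ∀ v : S, |∑ p, ∑ q, Nf S v p q - 3 * dens (Set.Ici (Real.pi / 2)) *
    (Fintype.card S : ℝ) ^ 2| ≤ η * (Fintype.card S : ℝ) ^ 2
  cnt_le : (cnt S (Set.Ici (Real.pi / 2)) : ℝ) ≤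
    (dens (Set.Ici (Real.pi / 2)) + η) * (Fintype.card S : ℝ) ^ 3

theorem exists_Near (η : ℝ) (hη : 0 < η) (n0 : ℕ) :
    ∃ S : Finset Pt, Near S η ∧ n0 ≤ Fintype.card S := by
  obtain ⟨S, h1, h2, h3, h4, h5, h6, -⟩ := exists_near (η / 3) (by positivity) n0
  refine ⟨S, ⟨h1, h2, ?_, ?_⟩, by rwa [Fintype.card_coe]⟩
  · intro v
    rw [sum_Nf, Fintype.card_coe, abs_le]
    have a1 := h5 v.1 v.2
    have a2 := h6 v.1 v.2
    constructor <;> nlinarith
  · rw [Fintype.card_coe]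
    refine h4.trans (mul_le_mul_of_nonneg_right (by linarith) (by positivity))

/-- **The limit**: if for all nearly optimal `S` the deficit is small, then `4/27 ≤ F(π/2)`. -/
theorem F_ge_of_Near (C M : ℝ) (n0 : ℕ)
    (h : ∀ η > 0, η ≤ 1 → ∀ S : Finset Pt, Near S η → n0 ≤ Fintype.card S →
      3 * dens (Set.Ici (Real.pi / 2)) < 4 / 9 →
      (4 / 9 - 3 * dens (Set.Ici (Real.pi / 2))) * (Fintype.card S : ℝ) ^ 3 ≤
        M * η * (Fintype.card S : ℝ) ^ 3 + C * (Fintype.card S : ℝ) ^ 2) :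
    4 / 27 ≤ F (Real.pi / 2) := by
  refine le_trans ?_ dens_Ici_le
  by_contra hcon
  push Not at hcon
  set D : ℝ := dens (Set.Ici (Real.pi / 2)) with hD
  set t : ℝ := 4 / 9 - 3 * D with ht
  have ht0 : 0 < t := by linarith
  set M' : ℝ := max M 1 with hM'
  have hM1 : 1 ≤ M' := le_max_right _ _
  have hMM : M ≤ M' := le_max_left _ _
  set C' : ℝ := max C 1 with hC'
  have hC1 : 1 ≤ C' := le_max_right _ _
  have hCC : C ≤ C' := le_max_left _ _
  set η : ℝ := min 1 (t / (4 * M')) with hη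
  have hη0 : 0 < η := lt_min one_pos (by positivity)
  have hη1 : η ≤ 1 := min_le_left _ _
  have hηt : M' * η ≤ t / 4 := by
    have : η ≤ t / (4 * M') := min_le_right _ _
    calc M' * η ≤ M' * (t / (4 * M')) := mul_le_mul_of_nonneg_left this (by linarith)
      _ = t / 4 := by field_simp
  obtain ⟨n1, hn1⟩ := exists_nat_gt (4 * C' / t)
  obtain ⟨S, hS, hcard⟩ := exists_Near η hη0 (max n0 (max n1 1))
  have a0 : n0 ≤ Fintype.card S := le_trans (le_max_left _ _) hcard
  have a1 : n1 ≤ Fintype.card S :=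
    le_trans (le_trans (le_max_left _ _) (le_max_right _ _)) hcard
  have a2 : 1 ≤ Fintype.card S :=
    le_trans (le_trans (le_max_right _ _) (le_max_right _ _)) hcard
  have h1 := h η hη0 hη1 S hS a0 (by linarith)
  set n : ℝ := (Fintype.card S : ℝ) with hn
  have hn1' : (1 : ℝ) ≤ n := by
    rw [hn]
    exact_mod_cast a2
  have hn2 : 4 * C' / t < n := lt_of_lt_of_le hn1 (by rw [hn]; exact_mod_cast a1)
  rw [div_lt_iff₀ ht0] at hn2
  have h2 : C * n ^ 2 ≤ t / 4 * n ^ 3 := by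
    have : C * n ^ 2 ≤ C' * n ^ 2 := mul_le_mul_of_nonneg_right hCC (by positivity)
    have h3 : C' * n ^ 2 ≤ (n * t / 4) * n ^ 2 :=
      mul_le_mul_of_nonneg_right (by linarith) (by positivity)
    calc C * n ^ 2 ≤ C' * n ^ 2 := this
      _ ≤ (n * t / 4) * n ^ 2 := h3
      _ = t / 4 * n ^ 3 := by ring
  have h4 : M * η * n ^ 3 ≤ t / 4 * n ^ 3 := by
    refine mul_le_mul_of_nonneg_right ?_ (by positivity)
    exact (mul_le_mul_of_nonneg_right hMM hη0.le).trans hηt
  have h5 : 0 < t * n ^ 3 := by positivity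
  linarith

/-- the triples in which two points coincide or a point is a root -/
noncomputable def coinc {ι R : Type*} [Fintype ι] [Fintype R] (rt : R → ι) :
    Finset (ι × ι × ι) :=
  {t | t.1 = t.2.1 ∨ t.1 = t.2.2 ∨ t.2.1 = t.2.2 ∨ ∃ r, t.1 = rt r ∨ t.2.1 = rt r ∨ t.2.2 = rt r}

theorem card_coinc {ι R : Type*} [Fintype ι] [Fintype R] (rt : R → ι) :
    ((coinc rt).card : ℝ) ≤ 3 * (1 + Fintype.card R) * (Fintype.card ι : ℝ) ^ 2 := by
  have hA : ∀ s : Finset (ι × ι × ι), ∀ g : ι × ι → ι × ι × ι, (∀ t ∈ s, ∃ z, g z = t) →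
      s.card ≤ Fintype.card ι ^ 2 := by
    intro s g hg
    have : s ⊆ univ.image g := fun t ht => by
      obtain ⟨z, hz⟩ := hg t ht
      exact mem_image.2 ⟨z, mem_univ _, hz⟩
    refine (card_le_card this).trans (card_image_le.trans ?_)
    rw [card_univ, Fintype.card_prod, sq]
  have hsub : coinc rt ⊆
      (({t | t.1 = t.2.1} : Finset (ι × ι × ι)) ∪ ({t | t.1 = t.2.2} : Finset (ι × ι × ι)) ∪
        ({t | t.2.1 = t.2.2} : Finset (ι × ι × ι))) ∪
      (univ : Finset R).biUnion (fun r => ({t | t.1 = rt r} : Finset (ι × ι × ι)) ∪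
        ({t | t.2.1 = rt r} : Finset (ι × ι × ι)) ∪ ({t | t.2.2 = rt r} : Finset (ι × ι × ι))) := by
    rintro ⟨a, b, d⟩ ht
    simp only [coinc, mem_filter, mem_univ, true_and, mem_union, mem_biUnion] at ht ⊢
    rcases ht with h | h | h | ⟨r, h | h | h⟩
    · exact Or.inl (Or.inl (Or.inl h))
    · exact Or.inl (Or.inl (Or.inr h))
    · exact Or.inl (Or.inr h)
    · exact Or.inr ⟨r, Or.inl (Or.inl h)⟩
    · exact Or.inr ⟨r, Or.inl (Or.inr h)⟩
    · exact Or.inr ⟨r, Or.inr h⟩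
  have h1 : (coinc rt).card ≤ 3 * Fintype.card ι ^ 2 +
      Fintype.card R * (3 * Fintype.card ι ^ 2) := by
    refine (card_le_card hsub).trans ((card_union_le _ _).trans (Nat.add_le_add ?_ ?_))
    · refine (card_union_le _ _).trans ?_
      have b1 := card_union_le ({t | t.1 = t.2.1} : Finset (ι × ι × ι))
        ({t | t.1 = t.2.2} : Finset (ι × ι × ι))
      have b2 := hA ({t | t.1 = t.2.1} : Finset (ι × ι × ι)) (fun z => (z.1, z.1, z.2)) (by
        rintro ⟨a, b, d⟩ h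
        simp only [mem_filter, mem_univ, true_and] at h
        exact ⟨(a, d), by simp [h]⟩)
      have b3 := hA ({t | t.1 = t.2.2} : Finset (ι × ι × ι)) (fun z => (z.1, z.2, z.1)) (by
        rintro ⟨a, b, d⟩ h
        simp only [mem_filter, mem_univ, true_and] at h
        exact ⟨(a, b), by simp [h]⟩)
      have b4 := hA ({t | t.2.1 = t.2.2} : Finset (ι × ι × ι)) (fun z => (z.1, z.2, z.2)) (by
        rintro ⟨a, b, d⟩ h
        simp only [mem_filter, mem_univ, true_and] at h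
        exact ⟨(a, b), by simp [h]⟩)
      omega
    · refine (card_biUnion_le_card_mul _ _ _ ?_)
      intro r _
      refine (card_union_le _ _).trans ?_
      have b1 := card_union_le ({t | t.1 = rt r} : Finset (ι × ι × ι))
        ({t | t.2.1 = rt r} : Finset (ι × ι × ι))
      have b2 := hA ({t | t.1 = rt r} : Finset (ι × ι × ι)) (fun z => (rt r, z.1, z.2)) (by
        rintro ⟨a, b, d⟩ h
        simp only [mem_filter, mem_univ, true_and] at h
        exact ⟨(b, d), by simp [h]⟩)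
      have b3 := hA ({t | t.2.1 = rt r} : Finset (ι × ι × ι)) (fun z => (z.1, rt r, z.2)) (by
        rintro ⟨a, b, d⟩ h
        simp only [mem_filter, mem_univ, true_and] at h
        exact ⟨(a, d), by simp [h]⟩)
      have b4 := hA ({t | t.2.2 = rt r} : Finset (ι × ι × ι)) (fun z => (z.1, z.2, rt r)) (by
        rintro ⟨a, b, d⟩ h
        simp only [mem_filter, mem_univ, true_and] at h
        exact ⟨(a, b), by simp [h]⟩)
      omega
  have h2 : ((coinc rt).card : ℝ) ≤ 3 * (Fintype.card ι : ℝ) ^ 2 +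
      Fintype.card R * (3 * (Fintype.card ι : ℝ) ^ 2) := by exact_mod_cast h1
  refine h2.trans (le_of_eq ?_)
  ring

end Pool.Agent.AKO
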