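import Pool.Agent.MP_0af329_co.Clus
import Pool.Agent.MP_0af329_co.Lim

set_option autoImplicit false

/-!
# Weighted blow-up of a finite configuration

`exists_blow`: every point `x` of `S` is replaced by `k x` points close to it.
`lag_real`: for all real weights `t ≥ 0` on `S`, with `T = Σ t`,
`3 D T³ ≤ 3 Σ_{(x,y,z), ∠ x y z ≥ π/2} t x t y t z + T³ - Σ_{(x,y,z) distinct} t x t y t z`,
`D = dens (Ici (π/2))`.
-/

namespace Pool.Agent.AKO

open Finset Filter Topology Pool.Agent.MP_0af329_co EuclideanGeometry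

/-- the ordered triples of distinct points with angle `≥ π/2` in the middle -/
noncomputable def obt (S : Finset Pt) : Finset (Pt × Pt × Pt) :=
  haveI := Classical.decPred fun t : Pt × Pt × Pt =>
    EuclideanGeometry.angle t.1 t.2.1 t.2.2 ∈ Set.Ici (Real.pi / 2)
  {t ∈ trip S | EuclideanGeometry.angle t.1 t.2.1 t.2.2 ∈ Set.Ici (Real.pi / 2)}

theorem cnt_eq_obt (S : Finset Pt) : cnt S (Set.Ici (Real.pi / 2)) = #(obt S) := by
  classical
  unfold cnt obt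
  congr

theorem mem_obt {S : Finset Pt} {t : Pt × Pt × Pt} :
    t ∈ obt S ↔ t ∈ trip S ∧ Real.pi / 2 ≤ EuclideanGeometry.angle t.1 t.2.1 t.2.2 := by
  unfold obt
  rw [mem_filter]
  rfl

/-- Weighted blow-up. -/
theorem exists_blow (S : Finset Pt) (k : Pt → ℕ) :
    ∃ (S' : Finset Pt) (π : Pt → Pt), GenPos S' ∧ (∀ p ∈ S', π p ∈ S) ∧
      (∀ x ∈ S, haveI := Classical.decEq Pt; #{p ∈ S' | π p = x} = k x) ∧
      ∀ a ∈ S', ∀ b ∈ S', ∀ c ∈ S', π a ≠ π b → π b ≠ π c → π a ≠ π c →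
        Real.pi / 2 ≤ ∠ a b c → Real.pi / 2 ≤ ∠ (π a) (π b) (π c) := by
  classical
  obtain ⟨ε, hε, hang⟩ := exists_eps S (Set.Iio (Real.pi / 2)) isOpen_Iio
  set I := Σ x : S, Fin (k x) with hI
  let e : I ≃ Fin (Fintype.card I) := Fintype.equivFin I
  obtain ⟨q, hq, hgen, hdist⟩ := exists_cluster
    (fun i : Fin (Fintype.card I) => ((e.symm i).1 : Pt)) ε hε
  let Q : I → Pt := fun a => q (e a)
  have hQ : Function.Injective Q := hq.comp e.injective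
  have hQd : ∀ a : I, dist (Q a) (a.1 : Pt) < ε := by
    intro a
    have := hdist (e a)
    rwa [Equiv.symm_apply_apply] at this
  have himg : Finset.univ.image q = Finset.univ.image Q := by
    ext p
    simp only [mem_image, mem_univ, true_and, Q]
    constructor
    · rintro ⟨i, rfl⟩
      exact ⟨e.symm i, by rw [Equiv.apply_symm_apply]⟩
    · rintro ⟨a, rfl⟩
      exact ⟨e a, rfl⟩
  rw [himg] at hgen
  let π : Pt → Pt := fun p => if h : ∃ a, Q a = p then (h.choose.1 : Pt) else p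
  have hπ : ∀ a, π (Q a) = a.1 := by
    intro a
    have h : ∃ b, Q b = Q a := ⟨a, rfl⟩
    have h1 : h.choose = a := hQ h.choose_spec
    simp only [π, dif_pos h]
    rw [h1]
  refine ⟨Finset.univ.image Q, π, hgen, ?_, ?_, ?_⟩
  · intro p hp
    obtain ⟨a, -, rfl⟩ := mem_image.1 hp
    rw [hπ]
    exact a.1.2
  · intro x hx
    have h1 : ({p ∈ Finset.univ.image Q | π p = x} : Finset Pt) =
        (Finset.univ : Finset (Fin (k x))).image (fun i => Q ⟨⟨x, hx⟩, i⟩) := by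
      ext p
      simp only [mem_filter, mem_image, mem_univ, true_and]
      constructor
      · rintro ⟨⟨⟨⟨y, hy⟩, i⟩, rfl⟩, h2⟩
        rw [hπ] at h2
        simp only at h2
        subst h2
        exact ⟨i, rfl⟩
      · rintro ⟨i, rfl⟩
        exact ⟨⟨_, rfl⟩, hπ _⟩
    have h3 : Function.Injective (fun i : Fin (k x) => Q ⟨⟨x, hx⟩, i⟩) := by
      intro i j hij
      exact eq_of_heq (Sigma.mk.inj_iff.1 (hQ hij)).2
    have h4 := congrArg card h1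
    rw [card_image_of_injective _ h3, card_univ, Fintype.card_fin] at h4
    rw [← h4]
    congr
  · intro a ha b hb c hc hab hbc hac h
    obtain ⟨a, -, rfl⟩ := mem_image.1 ha
    obtain ⟨b, -, rfl⟩ := mem_image.1 hb
    obtain ⟨c, -, rfl⟩ := mem_image.1 hc
    rw [hπ, hπ] at hab
    rw [hπ, hπ] at hbc
    rw [hπ, hπ] at hac
    rw [hπ, hπ, hπ]
    by_contra hcon
    push Not at hcon
    have h2 := hang _ a.1.2 _ b.1.2 _ c.1.2 hab hbc hac hcon (Q a) (Q b) (Q c)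
      (hQd a) (hQd b) (hQd c)
    exact absurd h (not_le.2 h2)

section sums
open Classical

theorem sum_pi (S S' : Finset Pt) (π : Pt → Pt) (k : Pt → ℕ) (h1 : ∀ p ∈ S', π p ∈ S)
    (h2 : ∀ x ∈ S, #{p ∈ S' | π p = x} = k x) (f : Pt → ℝ) :
    ∑ p ∈ S', f (π p) = ∑ x ∈ S, (k x : ℝ) * f x := by
  rw [← sum_fiberwise_of_maps_to h1]
  refine sum_congr rfl fun x hx => ?_
  rw [← h2 x hx, ← nsmul_eq_mul, ← sum_const]
  refine sum_congr rfl fun p hp => ?_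
  rw [(mem_filter.1 hp).2]

theorem sum_trip_ite (S : Finset Pt) (f : Pt → Pt → Pt → ℝ) :
    ∑ t ∈ trip S, f t.1 t.2.1 t.2.2 = ∑ x ∈ S, ∑ y ∈ S, ∑ z ∈ S,
      if x ≠ y ∧ y ≠ z ∧ x ≠ z then f x y z else 0 := by
  unfold trip
  rw [sum_filter, sum_product]
  refine sum_congr rfl fun x _ => ?_
  rw [sum_product]

theorem sum_pi3 (S S' : Finset Pt) (π : Pt → Pt) (k : Pt → ℕ) (h1 : ∀ p ∈ S', π p ∈ S)
    (h2 : ∀ x ∈ S, #{p ∈ S' | π p = x} = k x) (f : Pt → Pt → Pt → ℝ) :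
    ∑ a ∈ S', ∑ b ∈ S', ∑ c ∈ S', f (π a) (π b) (π c) =
      ∑ x ∈ S, ∑ y ∈ S, ∑ z ∈ S, (k x : ℝ) * (k y : ℝ) * (k z : ℝ) * f x y z := by
  have e1 : ∀ x y, ∑ c ∈ S', f x y (π c) = ∑ z ∈ S, (k z : ℝ) * f x y z := fun x y =>
    sum_pi S S' π k h1 h2 (f x y)
  have e2 : ∀ x, ∑ b ∈ S', ∑ c ∈ S', f x (π b) (π c) =
      ∑ y ∈ S, (k y : ℝ) * ∑ z ∈ S, (k z : ℝ) * f x y z := fun x => by
    rw [← sum_pi S S' π k h1 h2 (fun y => ∑ z ∈ S, (k z : ℝ) * f x y z)]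
    exact sum_congr rfl fun b _ => e1 x (π b)
  have e3 : ∑ a ∈ S', ∑ b ∈ S', ∑ c ∈ S', f (π a) (π b) (π c) =
      ∑ x ∈ S, (k x : ℝ) * ∑ y ∈ S, (k y : ℝ) * ∑ z ∈ S, (k z : ℝ) * f x y z := by
    rw [← sum_pi S S' π k h1 h2 (fun x => ∑ y ∈ S, (k y : ℝ) * ∑ z ∈ S, (k z : ℝ) * f x y z)]
    exact sum_congr rfl fun a _ => e2 (π a)
  rw [e3]
  refine sum_congr rfl fun x _ => ?_
  rw [mul_sum]
  refine sum_congr rfl fun y _ => ?_
  rw [mul_sum, mul_sum]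
  refine sum_congr rfl fun z _ => ?_
  ring

/-- at most one rotation of a triple is non-acute -/
theorem rot_le_one (a b c : Pt) (h1 : Real.pi / 2 ≤ ∠ a b c) (h2 : Real.pi / 2 ≤ ∠ b c a)
    (hab : a ≠ b) (hcol : ¬ Collinear ℝ ({a, b, c} : Set Pt)) : False := by
  have h3 := angle_add_angle_add_angle_eq_pi (p₁ := a) (p₂ := b) c hab.symm
  have h4 : 0 < ∠ c a b := by
    have h5 := angle_nonneg c a b
    rcases h5.lt_or_eq with h6 | h6
    · exact h6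
    · exfalso
      apply hcol
      have h7 : Collinear ℝ ({c, a, b} : Set Pt) :=
        collinear_of_angle_eq_zero h6.symm
      have h8 : ({c, a, b} : Set Pt) = {a, b, c} := by
        ext x
        simp only [Set.mem_insert_iff, Set.mem_singleton_iff]
        tauto
      rwa [h8] at h7
  linarith

/-- three different clusters -/
def Dst (π : Pt → Pt) (a b c : Pt) : Prop := π a ≠ π b ∧ π b ≠ π c ∧ π a ≠ π c

/-- not acute at `b` -/
def Nac (a b c : Pt) : Prop := Real.pi / 2 ≤ ∠ a b c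

/-- The Lagrangian inequality for one given blow-up. -/
theorem blow_le (S S' : Finset Pt) (π : Pt → Pt) (k : Pt → ℕ) (hgen : GenPos S')
    (hπ : ∀ p ∈ S', π p ∈ S) (hk' : ∀ x ∈ S, #{p ∈ S' | π p = x} = k x)
    (hang : ∀ a ∈ S', ∀ b ∈ S', ∀ c ∈ S', π a ≠ π b → π b ≠ π c → π a ≠ π c →
        Real.pi / 2 ≤ ∠ a b c → Real.pi / 2 ≤ ∠ (π a) (π b) (π c)) :
    S'.card = ∑ x ∈ S, k x ∧
      3 * (cnt S' (Set.Ici (Real.pi / 2)) : ℝ) ≤
        3 * ∑ t ∈ obt S, (k t.1 : ℝ) * k t.2.1 * k t.2.2 +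
        (∑ x ∈ S, (k x : ℝ)) ^ 3 - ∑ t ∈ trip S, (k t.1 : ℝ) * k t.2.1 * k t.2.2 := by
  refine ⟨?_, ?_⟩
  · rw [card_eq_sum_card_fiberwise hπ]
    exact sum_congr rfl fun x hx => hk' x hx
  have hcard : (S'.card : ℝ) = ∑ x ∈ S, (k x : ℝ) := by
    rw [card_eq_sum_card_fiberwise hπ]
    push_cast
    exact sum_congr rfl fun x hx => by rw [hk' x hx]
  -- distinct clusters
  have hc1 : (cnt S' (Set.Ici (Real.pi / 2)) : ℝ) =
      ∑ t ∈ trip S', (if Nac t.1 t.2.1 t.2.2 ∧ Dst π t.1 t.2.1 t.2.2 then (1 : ℝ) else 0) +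
      ∑ t ∈ trip S', (if Nac t.1 t.2.1 t.2.2 ∧ ¬ Dst π t.1 t.2.1 t.2.2 then (1 : ℝ) else 0) := by
    rw [cnt_eq_sum, ← sum_add_distrib]
    refine sum_congr rfl fun t _ => ?_
    by_cases h1 : Nac t.1 t.2.1 t.2.2 <;> by_cases h2 : Dst π t.1 t.2.1 t.2.2 <;>
      simp [h1, h2] <;> simpa [Nac] using h1
  have hA : ∑ t ∈ trip S', (if Dst π t.1 t.2.1 t.2.2 then (1 : ℝ) else 0) =
      ∑ t ∈ trip S, (k t.1 : ℝ) * k t.2.1 * k t.2.2 := by
    rw [sum_trip_ite S' (fun a b c => if Dst π a b c then (1 : ℝ) else 0),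
      sum_trip_ite S (fun x y z => (k x : ℝ) * k y * k z)]
    have h3 := sum_pi3 S S' π k hπ hk' (fun x y z => if x ≠ y ∧ y ≠ z ∧ x ≠ z then (1 : ℝ) else 0)
    have h4 : ∑ a ∈ S', ∑ b ∈ S', ∑ c ∈ S',
        (if a ≠ b ∧ b ≠ c ∧ a ≠ c then (if Dst π a b c then (1 : ℝ) else 0) else 0) =
        ∑ a ∈ S', ∑ b ∈ S', ∑ c ∈ S',
        (if π a ≠ π b ∧ π b ≠ π c ∧ π a ≠ π c then (1 : ℝ) else 0) := by
      refine sum_congr rfl fun a _ => sum_congr rfl fun b _ => sum_congr rfl fun c _ => ?_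
      by_cases h5 : Dst π a b c
      · have h6 : a ≠ b ∧ b ≠ c ∧ a ≠ c :=
          ⟨fun h => h5.1 (by rw [h]), fun h => h5.2.1 (by rw [h]), fun h => h5.2.2 (by rw [h])⟩
        rw [if_pos h6, if_pos h5, if_pos (show π a ≠ π b ∧ π b ≠ π c ∧ π a ≠ π c from h5)]
      · rw [if_neg h5, ite_self, if_neg (show ¬ (π a ≠ π b ∧ π b ≠ π c ∧ π a ≠ π c) from h5)]
    rw [h4, h3]
    refine sum_congr rfl fun a _ => sum_congr rfl fun b _ => sum_congr rfl fun c _ => ?_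
    split_ifs <;> simp
  have hB : ∑ t ∈ trip S', (if Nac t.1 t.2.1 t.2.2 ∧ Dst π t.1 t.2.1 t.2.2 then (1 : ℝ) else 0) ≤
      ∑ t ∈ obt S, (k t.1 : ℝ) * k t.2.1 * k t.2.2 := by
    have h0 : ∑ t ∈ obt S, (k t.1 : ℝ) * k t.2.1 * k t.2.2 =
        ∑ t ∈ trip S, (if Nac t.1 t.2.1 t.2.2 then (k t.1 : ℝ) * k t.2.1 * k t.2.2 else 0) := by
      unfold obt
      rw [sum_filter]
      refine sum_congr rfl fun t _ => ?_
      by_cases h1 : Nac t.1 t.2.1 t.2.2 <;> simp [h1] <;> simp only [Nac] at h1 <;> simp [h1]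
    rw [h0, sum_trip_ite S (fun x y z => if Nac x y z then (k x : ℝ) * k y * k z else 0),
      sum_trip_ite S' (fun a b c => if Nac a b c ∧ Dst π a b c then (1 : ℝ) else 0)]
    have h3 := sum_pi3 S S' π k hπ hk' (fun x y z =>
      if x ≠ y ∧ y ≠ z ∧ x ≠ z then (if Nac x y z then (1 : ℝ) else 0) else 0)
    have h4 : ∑ x ∈ S, ∑ y ∈ S, ∑ z ∈ S, (k x : ℝ) * k y * k z *
        (if x ≠ y ∧ y ≠ z ∧ x ≠ z then (if Nac x y z then (1 : ℝ) else 0) else 0) =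
        ∑ x ∈ S, ∑ y ∈ S, ∑ z ∈ S, (if x ≠ y ∧ y ≠ z ∧ x ≠ z then
          (if Nac x y z then (k x : ℝ) * k y * k z else 0) else 0) := by
      refine sum_congr rfl fun a _ => sum_congr rfl fun b _ => sum_congr rfl fun c _ => ?_
      split_ifs <;> simp
    rw [h4] at h3
    rw [← h3]
    refine sum_le_sum fun a ha => sum_le_sum fun b hb => sum_le_sum fun c hc => ?_
    by_cases h5 : Nac a b c ∧ Dst π a b c
    · have h6 : a ≠ b ∧ b ≠ c ∧ a ≠ c := ⟨fun h => h5.2.1 (by rw [h]),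
        fun h => h5.2.2.1 (by rw [h]), fun h => h5.2.2.2 (by rw [h])⟩
      have h7 : Nac (π a) (π b) (π c) := hang a ha b hb c hc h5.2.1 h5.2.2.1 h5.2.2.2 h5.1
      have h8 : π a ≠ π b ∧ π b ≠ π c ∧ π a ≠ π c := h5.2
      rw [if_pos h6, if_pos h5, if_pos h8, if_pos h7]
    · rw [if_neg h5, ite_self]
      split_ifs <;> norm_num
  have hC : 3 * ∑ t ∈ trip S', (if Nac t.1 t.2.1 t.2.2 ∧ ¬ Dst π t.1 t.2.1 t.2.2 then (1 : ℝ) else 0) ≤
      ∑ t ∈ trip S', (if ¬ Dst π t.1 t.2.1 t.2.2 then (1 : ℝ) else 0) := by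
    set f : Pt → Pt → Pt → ℝ := fun a b c => if Nac a b c ∧ ¬ Dst π a b c then (1 : ℝ) else 0 with hf
    have r1 : ∑ t ∈ trip S', f t.1 t.2.1 t.2.2 = ∑ t ∈ trip S', f t.2.1 t.2.2 t.1 :=
      sum_trip_rot S' f
    have r2 : ∑ t ∈ trip S', f t.2.1 t.2.2 t.1 = ∑ t ∈ trip S', f t.2.2 t.1 t.2.1 :=
      sum_trip_rot S' (fun a b c => f b c a)
    have r3 : 3 * ∑ t ∈ trip S', f t.1 t.2.1 t.2.2 =
        ∑ t ∈ trip S', (f t.1 t.2.1 t.2.2 + f t.2.1 t.2.2 t.1 + f t.2.2 t.1 t.2.1) := by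
      rw [sum_add_distrib, sum_add_distrib, ← r2, ← r1]
      ring
    have r4 : ∑ t ∈ trip S', (if Nac t.1 t.2.1 t.2.2 ∧ ¬ Dst π t.1 t.2.1 t.2.2 then (1 : ℝ) else 0) =
        ∑ t ∈ trip S', f t.1 t.2.1 t.2.2 := rfl
    rw [r4, r3]
    refine sum_le_sum ?_
    rintro ⟨a, b, c⟩ ht
    obtain ⟨⟨ha, hb, hc⟩, hab, hbc, hac⟩ := mem_trip.1 ht
    have hcol := hgen a ha b hb c hc hab hbc hac
    have hcol2 : ¬ Collinear ℝ ({b, c, a} : Set Pt) := by
      have h8 : ({b, c, a} : Set Pt) = {a, b, c} := by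
        ext x
        simp only [Set.mem_insert_iff, Set.mem_singleton_iff]
        tauto
      rwa [h8]
    have hcol3 : ¬ Collinear ℝ ({c, a, b} : Set Pt) := by
      have h8 : ({c, a, b} : Set Pt) = {a, b, c} := by
        ext x
        simp only [Set.mem_insert_iff, Set.mem_singleton_iff]
        tauto
      rwa [h8]
    simp only [hf]
    have d1 : Dst π b c a ↔ Dst π a b c := by
      simp only [Dst]
      constructor
      · rintro ⟨u, v, w⟩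
        exact ⟨w.symm, u, v.symm⟩
      · rintro ⟨u, v, w⟩
        exact ⟨v, w.symm, u.symm⟩
    have d2 : Dst π c a b ↔ Dst π a b c := by
      simp only [Dst]
      constructor
      · rintro ⟨u, v, w⟩
        exact ⟨v, w.symm, u.symm⟩
      · rintro ⟨u, v, w⟩
        exact ⟨w.symm, u, v.symm⟩
    rw [d1, d2]
    have x1 : ¬ (Nac a b c ∧ Nac b c a) := fun h => rot_le_one a b c h.1 h.2 hab hcol
    have x2 : ¬ (Nac b c a ∧ Nac c a b) := fun h => rot_le_one b c a h.1 h.2 hbc hcol2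
    have x3 : ¬ (Nac c a b ∧ Nac a b c) := fun h =>
      rot_le_one c a b h.1 h.2 hac.symm hcol3
    by_cases hd : Dst π a b c
    · simp [hd]
    · by_cases y1 : Nac a b c <;> by_cases y2 : Nac b c a <;> by_cases y3 : Nac c a b <;>
        simp only [y1, y2, y3, and_true, not_true_eq_false, and_false] at x1 x2 x3 <;>
        simp [hd, y1, y2, y3]
  have hD : ∑ t ∈ trip S', (if ¬ Dst π t.1 t.2.1 t.2.2 then (1 : ℝ) else 0) ≤
      (∑ x ∈ S, (k x : ℝ)) ^ 3 - ∑ t ∈ trip S, (k t.1 : ℝ) * k t.2.1 * k t.2.2 := by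
    have h1 : ∑ t ∈ trip S', (if ¬ Dst π t.1 t.2.1 t.2.2 then (1 : ℝ) else 0) +
        ∑ t ∈ trip S', (if Dst π t.1 t.2.1 t.2.2 then (1 : ℝ) else 0) = (trip S').card := by
      rw [← sum_add_distrib]
      have : ∀ t ∈ trip S', ((if ¬ Dst π t.1 t.2.1 t.2.2 then (1 : ℝ) else 0) +
          (if Dst π t.1 t.2.1 t.2.2 then (1 : ℝ) else 0)) = 1 := by
        intro t _
        by_cases h : Dst π t.1 t.2.1 t.2.2 <;> simp [h]
      rw [sum_congr rfl this, sum_const, nsmul_eq_mul, mul_one]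
    have h2 : ((trip S').card : ℝ) ≤ (∑ x ∈ S, (k x : ℝ)) ^ 3 := by
      rw [← hcard]
      have h3 : (trip S').card ≤ S'.card ^ 3 := by
        unfold trip
        refine (card_filter_le _ _).trans ?_
        rw [card_product, card_product]
        exact le_of_eq (by ring)
      exact_mod_cast h3
    rw [hA] at h1
    linarith
  rw [hc1]
  linarith

/-- The Lagrangian inequality for one blow-up. -/
theorem blow_count (S : Finset Pt) (k : Pt → ℕ) :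
    ∃ S' : Finset Pt, GenPos S' ∧ S'.card = ∑ x ∈ S, k x ∧
      3 * (cnt S' (Set.Ici (Real.pi / 2)) : ℝ) ≤
        3 * ∑ t ∈ obt S, (k t.1 : ℝ) * k t.2.1 * k t.2.2 +
        (∑ x ∈ S, (k x : ℝ)) ^ 3 - ∑ t ∈ trip S, (k t.1 : ℝ) * k t.2.1 * k t.2.2 := by
  obtain ⟨S', π, hgen, hπ, hk, hang⟩ := exists_blow S k
  have hk' : ∀ x ∈ S, #{p ∈ S' | π p = x} = k x := by
    intro x hx
    rw [← hk x hx]
    congr
  exact ⟨S', hgen, blow_le S S' π k hgen hπ hk' hang⟩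

end sums

end Pool.Agent.AKO
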