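import Pool.Agent.AKO.Lag

set_option autoImplicit false

/-!
# Codegree form of the second order inequality
-/

namespace Pool.Agent.AKO

open Finset Classical Filter Topology Pool.Agent.MP_0af329_co Pool.Agent.AK EuclideanGeometry

/-- the triangle `u v w` is not acute -/
def NAc (u v w : Pt) : Prop := Nac u v w ∨ Nac v w u ∨ Nac w u v

theorem ite_NAc (S : Finset Pt) (hS : GenPos S) {u v w : Pt} (h : (u, v, w) ∈ trip S) :
    (if NAc u v w then (1 : ℝ) else 0) = (if Nac u v w then (1 : ℝ) else 0) +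
      (if Nac v w u then (1 : ℝ) else 0) + (if Nac w u v then (1 : ℝ) else 0) := by
  obtain ⟨⟨ha, hb, hc⟩, hab, hbc, hac⟩ := mem_trip.1 h
  have hcol := hS u ha v hb w hc hab hbc hac
  have hcol2 : ¬ Collinear ℝ ({v, w, u} : Set Pt) := by
    have h8 : ({v, w, u} : Set Pt) = {u, v, w} := by
      ext x
      simp only [Set.mem_insert_iff, Set.mem_singleton_iff]
      tauto
    rwa [h8]
  have hcol3 : ¬ Collinear ℝ ({w, u, v} : Set Pt) := by
    have h8 : ({w, u, v} : Set Pt) = {u, v, w} := by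
      ext x
      simp only [Set.mem_insert_iff, Set.mem_singleton_iff]
      tauto
    rwa [h8]
  have x1 : ¬ (Nac u v w ∧ Nac v w u) := fun h => rot_le_one u v w h.1 h.2 hab hcol
  have x2 : ¬ (Nac v w u ∧ Nac w u v) := fun h => rot_le_one v w u h.1 h.2 hbc hcol2
  have x3 : ¬ (Nac w u v ∧ Nac u v w) := fun h => rot_le_one w u v h.1 h.2 hac.symm hcol3
  unfold NAc
  by_cases y1 : Nac u v w <;> by_cases y2 : Nac v w u <;> by_cases y3 : Nac w u v <;>
    simp only [y1, y2, y3, and_true, not_true_eq_false, and_false] at x1 x2 x3 <;>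
    simp [y1, y2, y3]

theorem sum_obt_ite (S : Finset Pt) (g : Pt → Pt → Pt → ℝ) :
    ∑ t ∈ obt S, g t.1 t.2.1 t.2.2 =
      ∑ t ∈ trip S, (if Nac t.1 t.2.1 t.2.2 then (1 : ℝ) else 0) * g t.1 t.2.1 t.2.2 := by
  unfold obt
  rw [sum_filter]
  refine sum_congr rfl fun t _ => ?_
  by_cases h1 : Nac t.1 t.2.1 t.2.2 <;> simp [h1] <;> simp only [Nac] at h1 <;> simp [h1]

/-- the quadratic form of the codegrees -/
theorem sum_cod (S : Finset Pt) (hS : GenPos S) (f : Pt → ℝ) :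
    ∑ t ∈ obt S, (f t.1 * f t.2.1 + f t.2.1 * f t.2.2 + f t.1 * f t.2.2) =
      ∑ t ∈ trip S, (if NAc t.1 t.2.1 t.2.2 then f t.1 * f t.2.1 else 0) := by
  rw [sum_obt_ite S (fun x y z => f x * f y + f y * f z + f x * f z)]
  have e1 : ∑ t ∈ trip S, (if NAc t.1 t.2.1 t.2.2 then f t.1 * f t.2.1 else 0) =
      ∑ t ∈ trip S, ((if Nac t.1 t.2.1 t.2.2 then (1 : ℝ) else 0) * (f t.1 * f t.2.1) +
        (if Nac t.2.1 t.2.2 t.1 then (1 : ℝ) else 0) * (f t.1 * f t.2.1) +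
        (if Nac t.2.2 t.1 t.2.1 then (1 : ℝ) else 0) * (f t.1 * f t.2.1)) := by
    refine sum_congr rfl ?_
    rintro ⟨u, v, w⟩ ht
    have h := ite_NAc S hS ht
    simp only
    have : (if NAc u v w then f u * f v else 0) = (if NAc u v w then (1 : ℝ) else 0) *
        (f u * f v) := by split_ifs <;> simp
    rw [this, h]
    ring
  have r1 : ∑ t ∈ trip S, (if Nac t.1 t.2.1 t.2.2 then (1 : ℝ) else 0) * (f t.1 * f t.2.2) =
      ∑ t ∈ trip S, (if Nac t.2.1 t.2.2 t.1 then (1 : ℝ) else 0) * (f t.2.1 * f t.1) :=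
    sum_trip_rot S (fun x y z => (if Nac x y z then (1 : ℝ) else 0) * (f x * f z))
  have r2 : ∑ t ∈ trip S, (if Nac t.2.2 t.1 t.2.1 then (1 : ℝ) else 0) * (f t.1 * f t.2.1) =
      ∑ t ∈ trip S, (if Nac t.1 t.2.1 t.2.2 then (1 : ℝ) else 0) * (f t.2.1 * f t.2.2) :=
    sum_trip_rot S (fun x y z => (if Nac z x y then (1 : ℝ) else 0) * (f x * f y))
  have r3 : ∑ t ∈ trip S, (if Nac t.2.1 t.2.2 t.1 then (1 : ℝ) else 0) * (f t.1 * f t.2.1) =
      ∑ t ∈ trip S, (if Nac t.2.1 t.2.2 t.1 then (1 : ℝ) else 0) * (f t.2.1 * f t.1) := by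
    refine sum_congr rfl fun t _ => ?_
    ring
  rw [e1, sum_add_distrib, sum_add_distrib, r2, r3, ← r1, ← sum_add_distrib, ← sum_add_distrib]
  refine sum_congr rfl fun t _ => ?_
  ring

/-- number of `w` such that the triangle `u v w` is not acute -/
noncomputable def cod (S : Finset Pt) (u v : Pt) : ℕ := #{w ∈ S | v ≠ w ∧ u ≠ w ∧ NAc u v w}

/-- Second order inequality with codegrees. -/
theorem sum_cod' (S : Finset Pt) (hS : GenPos S) (f : Pt → ℝ) :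
    ∑ t ∈ obt S, (f t.1 * f t.2.1 + f t.2.1 * f t.2.2 + f t.1 * f t.2.2) =
      ∑ u ∈ S, ∑ v ∈ S, if u ≠ v then (cod S u v : ℝ) * (f u * f v) else 0 := by
  rw [sum_cod S hS, sum_trip_ite S (fun u v w => if NAc u v w then f u * f v else 0)]
  refine sum_congr rfl fun u _ => sum_congr rfl fun v _ => ?_
  by_cases h : u = v
  · simp [h]
  · rw [if_pos h]
    unfold cod
    rw [card_filter]
    push_cast
    rw [sum_mul]
    refine sum_congr rfl fun w _ => ?_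
    by_cases h1 : v ≠ w ∧ u ≠ w
    · by_cases h2 : NAc u v w
      · simp [h, h1.1, h1.2, h2]
      · simp [h2]
    · rw [if_neg (fun h3 => h1 ⟨h3.2.1, h3.2.2⟩), if_neg (fun h3 => h1 ⟨h3.1, h3.2.1⟩), zero_mul]

/-- Nearly optimal sets, second order inequality with codegrees:
`Σ_{u ≠ v} cod(u,v) f u f v ≥ 3 D n (Σ f)² - η n³` for `|f| ≤ 1`. -/
theorem exists_opt3 (η : ℝ) (hη : 0 < η) (n0 : ℕ) :
    ∃ S : Finset Pt, GenPos S ∧ n0 ≤ S.card ∧
      (cnt S (Set.Ici (Real.pi / 2)) : ℝ) ≤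
        (dens (Set.Ici (Real.pi / 2)) + η) * (S.card : ℝ) ^ 3 ∧
      (∀ p ∈ S, (dg S (Set.Ici (Real.pi / 2)) p : ℝ) ≤
        3 * (dens (Set.Ici (Real.pi / 2)) + η) * (S.card : ℝ) ^ 2) ∧
      ∀ f : Pt → ℝ, (∀ x ∈ S, |f x| ≤ 1) →
        3 * dens (Set.Ici (Real.pi / 2)) * (S.card : ℝ) * (∑ x ∈ S, f x) ^ 2 -
          η * (S.card : ℝ) ^ 3 ≤
        ∑ u ∈ S, ∑ v ∈ S, if u ≠ v then (cod S u v : ℝ) * (f u * f v) else 0 := by
  obtain ⟨S, h1, h2, h3, h4, h5⟩ := exists_opt2 η hη n0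
  refine ⟨S, h1, h2, h3, h4, fun f hf => ?_⟩
  rw [← sum_cod' S h1]
  exact h5 f hf

end Pool.Agent.AKO
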