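import Pool.Agent.AKO.Lag
import Pool.Agent.AKS.Frame

set_option autoImplicit false

/-!
# Generic perturbations: no three collinear points, no right angles
-/

namespace Pool.Agent.AKO

open Finset Classical Filter Topology Pool.Agent.MP_0af329_co Pool.Agent.AK EuclideanGeometry

theorem perp_null (a b : Pt) (hab : a ≠ b) :
    MeasureTheory.volume {p : Pt | inner ℝ (p - a) (b - a) = 0} = 0 := by
  have h1 : {p : Pt | inner ℝ (p - a) (b - a) = 0} =
      (AffineSubspace.mk' a (Submodule.span ℝ {b - a})ᗮ : Set Pt) := by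
    ext p
    simp only [Set.mem_ofPred_eq, SetLike.mem_coe, AffineSubspace.mem_mk', vsub_eq_sub,
      Submodule.mem_orthogonal_singleton_iff_inner_left]
  rw [h1]
  refine MeasureTheory.Measure.addHaar_affineSubspace _ _ ?_
  intro h
  have h2 : b ∈ AffineSubspace.mk' a (Submodule.span ℝ {b - a})ᗮ := by
    rw [h]
    trivial
  rw [AffineSubspace.mem_mk', vsub_eq_sub, Submodule.mem_orthogonal_singleton_iff_inner_left] at h2
  rw [inner_self_eq_zero, sub_eq_zero] at h2
  exact hab h2.symm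

theorem thales_null (a b : Pt) (hab : a ≠ b) :
    MeasureTheory.volume {p : Pt | inner ℝ (a - p) (b - p) = 0} = 0 := by
  have h1 : {p : Pt | inner ℝ (a - p) (b - p) = 0} ⊆
      Metric.sphere ((1 / 2 : ℝ) • (a + b)) (‖a - b‖ / 2) := by
    intro p hp
    rw [Set.mem_ofPred_eq] at hp
    rw [mem_sphere_iff_norm]
    have h2 : ‖p - (1 / 2 : ℝ) • (a + b)‖ ^ 2 = (‖a - b‖ / 2) ^ 2 := by
      have e1 : p - (1 / 2 : ℝ) • (a + b) = (-(1 / 2 : ℝ)) • ((a - p) + (b - p)) := by
        module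
      have e3 : ‖(a - p) + (b - p)‖ ^ 2 = ‖a - p‖ ^ 2 + ‖b - p‖ ^ 2 := by
        rw [norm_add_sq_real, hp]
        ring
      have e4 : ‖a - b‖ ^ 2 = ‖a - p‖ ^ 2 + ‖b - p‖ ^ 2 := by
        have e2 : a - b = (a - p) - (b - p) := by abel
        rw [e2, norm_sub_sq_real, hp]
        ring
      rw [e1, norm_smul, mul_pow, div_pow, e3, e4]
      norm_num
      ring
    have h3 : 0 ≤ ‖a - b‖ / 2 := by positivity
    exact (sq_eq_sq₀ (norm_nonneg _) h3).1 h2
  refine MeasureTheory.measure_mono_null h1 ?_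
  exact MeasureTheory.Measure.addHaar_sphere _ _ _

/-- A ball is not covered by finitely many lines and circles. -/
theorem avoid2 {N : ℕ} (q : Fin N → Pt) (c : Pt) (ε : ℝ) (hε : 0 < ε) :
    ∃ p : Pt, dist p c < ε ∧ (∀ i j, p ∉ affineSpan ℝ ({q i, q j} : Set Pt)) ∧
      (∀ i j, q i ≠ q j → inner ℝ (p - q i) (q j - q i) ≠ 0) ∧
      (∀ i j, q i ≠ q j → inner ℝ (q i - p) (q j - p) ≠ 0) := by
  by_contra hcon
  push Not at hcon
  have hsub : Metric.ball c ε ⊆ (⋃ i, ⋃ j, (affineSpan ℝ ({q i, q j} : Set Pt) : Set Pt)) ∪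
      ((⋃ i, ⋃ j, ⋃ _ : q i ≠ q j, {p : Pt | inner ℝ (p - q i) (q j - q i) = 0}) ∪
      (⋃ i, ⋃ j, ⋃ _ : q i ≠ q j, {p : Pt | inner ℝ (q i - p) (q j - p) = 0})) := by
    intro p hp
    by_cases h1 : ∀ i j, p ∉ affineSpan ℝ ({q i, q j} : Set Pt)
    · by_cases h2 : ∀ i j, q i ≠ q j → inner ℝ (p - q i) (q j - q i) ≠ 0
      · obtain ⟨i, j, h3, h4⟩ := hcon p hp h1 h2
        exact Or.inr (Or.inr (Set.mem_iUnion.2 ⟨i, Set.mem_iUnion.2 ⟨j,
          Set.mem_iUnion.2 ⟨h3, h4⟩⟩⟩))
      · push Not at h2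
        obtain ⟨i, j, h3, h4⟩ := h2
        exact Or.inr (Or.inl (Set.mem_iUnion.2 ⟨i, Set.mem_iUnion.2 ⟨j,
          Set.mem_iUnion.2 ⟨h3, h4⟩⟩⟩))
    · push Not at h1
      obtain ⟨i, j, h3⟩ := h1
      exact Or.inl (Set.mem_iUnion.2 ⟨i, Set.mem_iUnion.2 ⟨j, h3⟩⟩)
  have h0 : MeasureTheory.volume ((⋃ i, ⋃ j, (affineSpan ℝ ({q i, q j} : Set Pt) : Set Pt)) ∪
      ((⋃ i, ⋃ j, ⋃ _ : q i ≠ q j, {p : Pt | inner ℝ (p - q i) (q j - q i) = 0}) ∪
      (⋃ i, ⋃ j, ⋃ _ : q i ≠ q j, {p : Pt | inner ℝ (q i - p) (q j - p) = 0}))) = 0 := by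
    rw [MeasureTheory.measure_union_null_iff, MeasureTheory.measure_union_null_iff]
    refine ⟨?_, ?_, ?_⟩
    · rw [MeasureTheory.measure_iUnion_null_iff]
      intro i
      rw [MeasureTheory.measure_iUnion_null_iff]
      intro j
      exact MeasureTheory.Measure.addHaar_affineSubspace _ _ (clus_span_ne_top _ _)
    · rw [MeasureTheory.measure_iUnion_null_iff]
      intro i
      rw [MeasureTheory.measure_iUnion_null_iff]
      intro j
      rw [MeasureTheory.measure_iUnion_null_iff]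
      intro h
      exact perp_null _ _ h
    · rw [MeasureTheory.measure_iUnion_null_iff]
      intro i
      rw [MeasureTheory.measure_iUnion_null_iff]
      intro j
      rw [MeasureTheory.measure_iUnion_null_iff]
      intro h
      exact thales_null _ _ h
  have h1 : 0 < MeasureTheory.volume (Metric.ball c ε) := Metric.measure_ball_pos _ _ hε
  exact absurd (MeasureTheory.measure_mono_null hsub h0) h1.ne'

/-- no right angles -/
def NoRight (S : Finset Pt) : Prop :=
  ∀ x ∈ S, ∀ y ∈ S, ∀ z ∈ S, x ≠ y → y ≠ z → x ≠ z → ∠ x y z ≠ Real.pi / 2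

theorem angle_ne_of_inner {x y z : Pt} (h : inner ℝ (x - y) (z - y) ≠ 0) :
    ∠ x y z ≠ Real.pi / 2 := by
  intro h1
  apply h
  rw [EuclideanGeometry.angle, ← InnerProductGeometry.inner_eq_zero_iff_angle_eq_pi_div_two,
    vsub_eq_sub, vsub_eq_sub] at h1
  exact h1

/-- Generic points in prescribed small balls. -/
theorem exists_cluster2 {N : ℕ} (c : Fin N → Pt) (ε : ℝ) (hε : 0 < ε) :
    ∃ q : Fin N → Pt, Function.Injective q ∧ GenPos (Finset.univ.image q) ∧
      NoRight (Finset.univ.image q) ∧ ∀ i, dist (q i) (c i) < ε := by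
  suffices h : ∃ q : Fin N → Pt, Function.Injective q ∧
      (∀ i j k : Fin N, i ≠ j → j ≠ k → i ≠ k → ¬ Collinear ℝ ({q i, q j, q k} : Set Pt)) ∧
      (∀ i j k : Fin N, i ≠ j → j ≠ k → i ≠ k → ∠ (q i) (q j) (q k) ≠ Real.pi / 2) ∧
      ∀ i, dist (q i) (c i) < ε by
    obtain ⟨q, hq, hcol, hnr, hd⟩ := h
    refine ⟨q, hq, ?_, ?_, hd⟩
    · intro x hx y hy z hz hxy hyz hxz
      obtain ⟨i, -, rfl⟩ := Finset.mem_image.1 hx
      obtain ⟨j, -, rfl⟩ := Finset.mem_image.1 hy
      obtain ⟨k, -, rfl⟩ := Finset.mem_image.1 hz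
      exact hcol i j k (fun h => hxy (by rw [h])) (fun h => hyz (by rw [h]))
        (fun h => hxz (by rw [h]))
    · intro x hx y hy z hz hxy hyz hxz
      obtain ⟨i, -, rfl⟩ := Finset.mem_image.1 hx
      obtain ⟨j, -, rfl⟩ := Finset.mem_image.1 hy
      obtain ⟨k, -, rfl⟩ := Finset.mem_image.1 hz
      exact hnr i j k (fun h => hxy (by rw [h])) (fun h => hyz (by rw [h]))
        (fun h => hxz (by rw [h]))
  induction N with
  | zero => exact ⟨c, fun i => i.elim0, fun i => i.elim0, fun i => i.elim0, fun i => i.elim0⟩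
  | succ N ih =>
    obtain ⟨q, hq, hcol, hnr, hd⟩ := ih (fun i => c i.castSucc)
    obtain ⟨p, hp, hav, hav2, hav3⟩ := avoid2 q (c (Fin.last N)) ε hε
    have hpne : ∀ i, p ≠ q i := by
      intro i h
      apply hav i i
      rw [h]
      exact mem_affineSpan ℝ (by simp)
    have hpcol : ∀ i j, i ≠ j → ¬ Collinear ℝ ({p, q i, q j} : Set Pt) := by
      intro i j hij h
      exact hav i j (h.mem_affineSpan_of_mem_of_ne (by simp) (by simp) (by simp)
        (fun he => hij (hq he)))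
    refine ⟨Fin.snoc (α := fun _ => Pt) q p, ?_, ?_, ?_, ?_⟩
    · intro i j hij
      refine Fin.lastCases ?_ (fun i => ?_) i hij <;> intro hij <;> revert hij <;>
        refine Fin.lastCases ?_ (fun j => ?_) j <;> intro hij
      · rfl
      · simp only [Fin.snoc_last, Fin.snoc_castSucc] at hij
        exact absurd hij (hpne j)
      · simp only [Fin.snoc_last, Fin.snoc_castSucc] at hij
        exact absurd hij.symm (hpne i)
      · simp only [Fin.snoc_castSucc] at hij
        rw [hq hij]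
    · intro i j k
      refine Fin.lastCases ?_ (fun i => ?_) i <;> refine Fin.lastCases ?_ (fun j => ?_) j <;>
        refine Fin.lastCases ?_ (fun k => ?_) k <;> intro h1 h2 h3
      · exact absurd rfl h1
      · exact absurd rfl h1
      · exact absurd rfl h3
      · simp only [Fin.snoc_last, Fin.snoc_castSucc]
        exact hpcol j k (fun h => h2 (by rw [h]))
      · exact absurd rfl h2
      · simp only [Fin.snoc_last, Fin.snoc_castSucc]
        rw [Set.insert_comm]
        exact hpcol i k (fun h => h3 (by rw [h]))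
      · simp only [Fin.snoc_last, Fin.snoc_castSucc]
        rw [Set.pair_comm, Set.insert_comm]
        exact hpcol i j (fun h => h1 (by rw [h]))
      · simp only [Fin.snoc_castSucc]
        exact hcol i j k (fun h => h1 (by rw [h])) (fun h => h2 (by rw [h]))
          (fun h => h3 (by rw [h]))
    · intro i j k
      refine Fin.lastCases ?_ (fun i => ?_) i <;> refine Fin.lastCases ?_ (fun j => ?_) j <;>
        refine Fin.lastCases ?_ (fun k => ?_) k <;> intro h1 h2 h3
      · exact absurd rfl h1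
      · exact absurd rfl h1
      · exact absurd rfl h3
      · simp only [Fin.snoc_last, Fin.snoc_castSucc]
        have hjk : j ≠ k := fun h => h2 (by rw [h])
        exact angle_ne_of_inner (hav2 j k (fun h => hjk (hq h)))
      · exact absurd rfl h2
      · simp only [Fin.snoc_last, Fin.snoc_castSucc]
        have hik : i ≠ k := fun h => h3 (by rw [h])
        exact angle_ne_of_inner (hav3 i k (fun h => hik (hq h)))
      · simp only [Fin.snoc_last, Fin.snoc_castSucc]
        have hij : i ≠ j := fun h => h1 (by rw [h])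
        rw [angle_comm]
        exact angle_ne_of_inner (hav2 j i (fun h => hij (hq h).symm))
      · simp only [Fin.snoc_castSucc]
        exact hnr i j k (fun h => h1 (by rw [h])) (fun h => h2 (by rw [h]))
          (fun h => h3 (by rw [h]))
    · intro i
      refine Fin.lastCases ?_ (fun i => ?_) i
      · simpa only [Fin.snoc_last] using hp
      · simpa only [Fin.snoc_castSucc] using hd i

/-- `S'` is an `ε`-blow-up of `S` with multiplicities `k` and projection `π` -/
structure IsBlow (S : Finset Pt) (k : Pt → ℕ) (ε : ℝ) (S' : Finset Pt) (π : Pt → Pt) : Prop where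
  gen : GenPos S'
  nr : NoRight S'
  maps : ∀ p ∈ S', π p ∈ S
  card : ∀ x ∈ S, #{p ∈ S' | π p = x} = k x
  near : ∀ p ∈ S', dist p (π p) < ε

theorem exists_isBlow (S : Finset Pt) (k : Pt → ℕ) (ε : ℝ) (hε : 0 < ε) :
    ∃ (S' : Finset Pt) (π : Pt → Pt), IsBlow S k ε S' π := by
  set I := Σ x : S, Fin (k x) with hI
  let e : I ≃ Fin (Fintype.card I) := Fintype.equivFin I
  obtain ⟨q, hq, hgen, hnr, hdist⟩ := exists_cluster2
    (fun i : Fin (Fintype.card I) => ((e.symm i).1 : Pt)) ε hε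
  let Q : I → Pt := fun a => q (e a)
  have hQ : Function.Injective Q := hq.comp e.injective
  have hQd : ∀ a : I, dist (Q a) (a.1 : Pt) < ε := by
    intro a
    have := hdist (e a)
    rwa [Equiv.symm_apply_apply] at this
  have himg : Finset.univ.image q = Finset.univ.image Q := by
    ext p
    simp only [mem_image, mem_univ, true_and, Q]
    constructor
    · rintro ⟨i, rfl⟩
      exact ⟨e.symm i, by rw [Equiv.apply_symm_apply]⟩
    · rintro ⟨a, rfl⟩
      exact ⟨e a, rfl⟩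
  have hgen' : GenPos (Finset.univ.image Q) := himg ▸ hgen
  have hnr' : NoRight (Finset.univ.image Q) := himg ▸ hnr
  let π : Pt → Pt := fun p => if h : ∃ a, Q a = p then (h.choose.1 : Pt) else p
  have hπ : ∀ a, π (Q a) = a.1 := by
    intro a
    have h : ∃ b, Q b = Q a := ⟨a, rfl⟩
    have h1 : h.choose = a := hQ h.choose_spec
    simp only [π, dif_pos h]
    rw [h1]
  refine ⟨Finset.univ.image Q, π, hgen', hnr', ?_, ?_, ?_⟩
  · intro p hp
    obtain ⟨a, -, rfl⟩ := mem_image.1 hp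
    rw [hπ]
    exact a.1.2
  · intro x hx
    have h1 : ({p ∈ Finset.univ.image Q | π p = x} : Finset Pt) =
        (Finset.univ : Finset (Fin (k x))).image (fun i => Q ⟨⟨x, hx⟩, i⟩) := by
      ext p
      simp only [mem_filter, mem_image, mem_univ, true_and]
      constructor
      · rintro ⟨⟨⟨⟨y, hy⟩, i⟩, rfl⟩, h2⟩
        rw [hπ] at h2
        simp only at h2
        subst h2
        exact ⟨i, rfl⟩
      · rintro ⟨i, rfl⟩
        exact ⟨⟨_, rfl⟩, hπ _⟩
    have h3 : Function.Injective (fun i : Fin (k x) => Q ⟨⟨x, hx⟩, i⟩) := by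
      intro i j hij
      exact eq_of_heq (Sigma.mk.inj_iff.1 (hQ hij)).2
    have h4 := congrArg Finset.card h1
    rw [card_image_of_injective _ h3, card_univ, Fintype.card_fin] at h4
    rw [← h4]
  · intro p hp
    obtain ⟨a, -, rfl⟩ := mem_image.1 hp
    rw [hπ]
    exact hQd a

/-- the property of a small `ε` that is used in all transfers -/
structure Small (S : Finset Pt) (a b : ℝ) (ε : ℝ) : Prop where
  lt : ∀ x ∈ S, ∀ y ∈ S, ∀ z ∈ S, x ≠ y → y ≠ z → x ≠ z → ∠ x y z < Real.pi / 2 →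
    ∀ x' y' z' : Pt, dist x' x < ε → dist y' y < ε → dist z' z < ε → ∠ x' y' z' < Real.pi / 2
  gt : ∀ x ∈ S, ∀ y ∈ S, ∀ z ∈ S, x ≠ y → y ≠ z → x ≠ z → Real.pi / 2 < ∠ x y z →
    ∀ x' y' z' : Pt, dist x' x < ε → dist y' y < ε → dist z' z < ε → Real.pi / 2 < ∠ x' y' z'
  fx : ∀ x ∈ S, ∀ y ∈ S, a * x 0 + b * x 1 < a * y 0 + b * y 1 →
    ∀ x' y' : Pt, dist x' x < ε → dist y' y < ε → a * x' 0 + b * x' 1 < a * y' 0 + b * y' 1
  fy : ∀ x ∈ S, ∀ y ∈ S, a * x 1 - b * x 0 < a * y 1 - b * y 0 →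
    ∀ x' y' : Pt, dist x' x < ε → dist y' y < ε → a * x' 1 - b * x' 0 < a * y' 1 - b * y' 0

theorem Small.mono {S : Finset Pt} {a b ε ε' : ℝ} (h : Small S a b ε) (h' : ε' ≤ ε) :
    Small S a b ε' where
  lt x hx y hy z hz h1 h2 h3 h4 x' y' z' g1 g2 g3 := h.lt x hx y hy z hz h1 h2 h3 h4 x' y' z'
    (g1.trans_le h') (g2.trans_le h') (g3.trans_le h')
  gt x hx y hy z hz h1 h2 h3 h4 x' y' z' g1 g2 g3 := h.gt x hx y hy z hz h1 h2 h3 h4 x' y' z'
    (g1.trans_le h') (g2.trans_le h') (g3.trans_le h')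
  fx x hx y hy h1 x' y' g1 g2 := h.fx x hx y hy h1 x' y' (g1.trans_le h') (g2.trans_le h')
  fy x hx y hy h1 x' y' g1 g2 := h.fy x hx y hy h1 x' y' (g1.trans_le h') (g2.trans_le h')

theorem eps_lin (S : Finset Pt) (f : Pt → ℝ) (hf : Continuous f) :
    ∃ ε > 0, ∀ x ∈ S, ∀ y ∈ S, f x < f y → ∀ x' y' : Pt, dist x' x < ε → dist y' y < ε →
      f x' < f y' := by
  have key : ∀ᶠ ε : ℝ in 𝓝[>] 0, ∀ x ∈ S, ∀ y ∈ S, f x < f y →
      ∀ x' y' : Pt, dist x' x < ε → dist y' y < ε → f x' < f y' := by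
    rw [Filter.eventually_all_finset]
    intro x _
    rw [Filter.eventually_all_finset]
    intro y _
    by_cases hxy : f x < f y
    swap
    · exact Filter.Eventually.of_forall fun _ h => absurd h hxy
    have hc : Continuous (fun t : Pt × Pt => (f t.1, f t.2)) := by fun_prop
    have hnh : ∀ᶠ t in 𝓝 ((x, y) : Pt × Pt), f t.1 < f t.2 := by
      refine (isOpen_lt ?_ ?_).mem_nhds hxy
      · fun_prop
      · fun_prop
    obtain ⟨δ, hδ, hball⟩ := Metric.eventually_nhds_iff.1 hnh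
    filter_upwards [Ioo_mem_nhdsGT hδ] with ε hε _ x' y' h1 h2
    refine hball (y := (x', y')) ?_
    rw [Prod.dist_eq]
    exact max_lt (h1.trans hε.2) (h2.trans hε.2)
  obtain ⟨ε, h, hε⟩ := (key.and self_mem_nhdsWithin).exists
  exact ⟨ε, hε, h⟩

theorem exists_small (S : Finset Pt) (a b : ℝ) : ∃ ε > 0, Small S a b ε := by
  obtain ⟨e1, h1, g1⟩ := exists_eps S (Set.Iio (Real.pi / 2)) isOpen_Iio
  obtain ⟨e2, h2, g2⟩ := exists_eps S (Set.Ioi (Real.pi / 2)) isOpen_Ioi
  obtain ⟨e3, h3, g3⟩ := eps_lin S (fun p => a * p 0 + b * p 1) (by fun_prop)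
  obtain ⟨e4, h4, g4⟩ := eps_lin S (fun p => a * p 1 - b * p 0) (by fun_prop)
  refine ⟨min (min e1 e2) (min e3 e4), lt_min (lt_min h1 h2) (lt_min h3 h4), ?_, ?_, ?_, ?_⟩
  · intro x hx y hy z hz k1 k2 k3 k4 x' y' z' l1 l2 l3
    have m : min (min e1 e2) (min e3 e4) ≤ e1 := (min_le_left _ _).trans (min_le_left _ _)
    exact g1 x hx y hy z hz k1 k2 k3 k4 x' y' z' (l1.trans_le m) (l2.trans_le m) (l3.trans_le m)
  · intro x hx y hy z hz k1 k2 k3 k4 x' y' z' l1 l2 l3
    have m : min (min e1 e2) (min e3 e4) ≤ e2 := (min_le_left _ _).trans (min_le_right _ _)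
    exact g2 x hx y hy z hz k1 k2 k3 k4 x' y' z' (l1.trans_le m) (l2.trans_le m) (l3.trans_le m)
  · intro x hx y hy k1 x' y' l1 l2
    have m : min (min e1 e2) (min e3 e4) ≤ e3 := (min_le_right _ _).trans (min_le_left _ _)
    exact g3 x hx y hy k1 x' y' (l1.trans_le m) (l2.trans_le m)
  · intro x hx y hy k1 x' y' l1 l2
    have m : min (min e1 e2) (min e3 e4) ≤ e4 := (min_le_right _ _).trans (min_le_right _ _)
    exact g4 x hx y hy k1 x' y' (l1.trans_le m) (l2.trans_le m)

end Pool.Agent.AKO
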