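import Pool.Agent.AK.Geo

set_option autoImplicit false

/-!
# Optimal sets have small degrees (by deletion of a point)
-/

namespace Pool.Agent.AKO

open Finset Classical Filter Topology Pool.Agent.MP_0af329_co Pool.Agent.AK

/-- the ordered triples with angle in `A` in which `p` takes part -/
noncomputable def dg (S : Finset Pt) (A : Set ℝ) (p : Pt) : ℕ :=
  #{t ∈ trip S | EuclideanGeometry.angle t.1 t.2.1 t.2.2 ∈ A ∧ (p = t.1 ∨ p = t.2.1 ∨ p = t.2.2)}

theorem cnt_erase (S : Finset Pt) (A : Set ℝ) (p : Pt) :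
    cnt (S.erase p) A + dg S A p = cnt S A := by
  have h1 : ({t ∈ trip S | EuclideanGeometry.angle t.1 t.2.1 t.2.2 ∈ A} : Finset (Pt × Pt × Pt)) =
      {t ∈ trip (S.erase p) | EuclideanGeometry.angle t.1 t.2.1 t.2.2 ∈ A} ∪
      {t ∈ trip S | EuclideanGeometry.angle t.1 t.2.1 t.2.2 ∈ A ∧
        (p = t.1 ∨ p = t.2.1 ∨ p = t.2.2)} := by
    ext ⟨x, y, z⟩
    simp only [mem_union, mem_filter, mem_trip, mem_erase]
    have e1 : p = x ↔ x = p := eq_comm
    have e2 : p = y ↔ y = p := eq_comm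
    have e3 : p = z ↔ z = p := eq_comm
    rw [e1, e2, e3]
    tauto
  have h2 : Disjoint ({t ∈ trip (S.erase p) | EuclideanGeometry.angle t.1 t.2.1 t.2.2 ∈ A} :
      Finset (Pt × Pt × Pt))
      {t ∈ trip S | EuclideanGeometry.angle t.1 t.2.1 t.2.2 ∈ A ∧
        (p = t.1 ∨ p = t.2.1 ∨ p = t.2.2)} := by
    rw [disjoint_left]
    rintro ⟨x, y, z⟩ ha hb
    simp only [mem_filter, mem_trip, mem_erase] at ha hb
    obtain ⟨⟨⟨hx, hy, hz⟩, -⟩, -⟩ := ha
    rcases hb.2.2 with h | h | h
    · exact hx.1 h.symm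
    · exact hy.1 h.symm
    · exact hz.1 h.symm
  unfold cnt dg
  rw [h1, card_union_of_disjoint h2]

theorem sum_dg (S : Finset Pt) (A : Set ℝ) : ∑ p ∈ S, dg S A p = 3 * cnt S A := by
  have h := sum_cnt_erase S A
  have h1 : ∑ p ∈ S, (cnt (S.erase p) A + dg S A p) = ∑ p ∈ S, cnt S A :=
    sum_congr rfl fun p _ => cnt_erase S A p
  rw [sum_add_distrib, sum_const, smul_eq_mul] at h1
  omega

/-- If the limit is `< c`, there are arbitrarily large sets in general position with small count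
and with small degrees at all points. -/
theorem exists_opt (A : Set ℝ) (c : ℝ) (hc : dens A < c) (n0 : ℕ) :
    ∃ S : Finset Pt, GenPos S ∧ n0 ≤ S.card ∧
      (cnt S A : ℝ) < c * ((S.card : ℝ) * ((S.card : ℝ) - 1) * ((S.card : ℝ) - 2)) ∧
      ∀ p ∈ S, (dg S A p : ℝ) ≤ 3 * c * (((S.card : ℝ) - 1) * ((S.card : ℝ) - 2)) := by
  by_contra hcon
  push Not at hcon
  set m0 := max n0 3 with hm0
  have hm3 : 3 ≤ m0 := le_max_right _ _
  have hm1 : n0 ≤ m0 := le_max_left _ _
  set D : ℕ → ℝ := fun n => (minCnt n A : ℝ) - c * ((n : ℝ) * ((n : ℝ) - 1) * ((n : ℝ) - 2))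
    with hD
  have hup : ∀ n : ℕ, 3 ≤ n → (minCnt n A : ℝ) ≤
      dens A * ((n : ℝ) * ((n : ℝ) - 1) * ((n : ℝ) - 2)) := by
    intro n hn
    have h1 := ratio_le_dens A hn
    rwa [ratio, div_le_iff₀ (denom_pos hn)] at h1
  have hstep : ∀ n : ℕ, m0 ≤ n → D n ≤ D (n + 1) := by
    intro n hn
    obtain ⟨S, h1, h2, h3⟩ := exists_minCnt (n + 1) A
    have h4 : (cnt S A : ℝ) < c * ((S.card : ℝ) * ((S.card : ℝ) - 1) * ((S.card : ℝ) - 2)) := by
      rw [h3, h1]
      have h5 := hup (n + 1) (by omega)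
      have h6 := denom_pos (n := n + 1) (by omega)
      nlinarith
    obtain ⟨p, hp, h5⟩ := hcon S h2 (by omega) h4
    have h6 : (S.erase p).card = n := by rw [card_erase_of_mem hp, h1]; rfl
    have h7 := minCnt_le (h2.mono (erase_subset p S)) A
    rw [h6] at h7
    have h8 : (minCnt n A : ℝ) + dg S A p ≤ minCnt (n + 1) A := by
      rw [← h3, ← cnt_erase S A p]
      push_cast
      have : (minCnt n A : ℝ) ≤ cnt (S.erase p) A := by exact_mod_cast h7
      linarith
    rw [h1] at h5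
    simp only [hD]
    push_cast at h5 ⊢
    nlinarith
  have hall : ∀ k : ℕ, D m0 ≤ D (m0 + k) := by
    intro k
    induction k with
    | zero => exact le_refl _
    | succ k ih => exact ih.trans (hstep (m0 + k) (by omega))
  obtain ⟨k, hk⟩ := exists_nat_gt (-D m0 / (c - dens A))
  have hpos : 0 < c - dens A := by linarith
  rw [div_lt_iff₀ hpos] at hk
  have h1 := hall k
  have h2 := hup (m0 + k) (by omega)
  have h3 : (k : ℝ) ≤ ((m0 + k : ℕ) : ℝ) * (((m0 + k : ℕ) : ℝ) - 1) * (((m0 + k : ℕ) : ℝ) - 2) := by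
    have a3 : (3 : ℝ) ≤ m0 := by exact_mod_cast hm3
    have a0 : (0 : ℝ) ≤ k := Nat.cast_nonneg k
    push_cast
    have a1 : (1 : ℝ) ≤ (m0 : ℝ) + k - 2 := by linarith
    have a2 : (1 : ℝ) ≤ (m0 : ℝ) + k - 1 := by linarith
    have a4 : (k : ℝ) ≤ (m0 : ℝ) + k := by linarith
    have a5 : (0 : ℝ) ≤ (m0 : ℝ) + k := by linarith
    calc (k : ℝ) ≤ (m0 : ℝ) + k := a4
      _ ≤ ((m0 : ℝ) + k) * ((m0 : ℝ) + k - 1) := le_mul_of_one_le_right a5 a2
      _ ≤ ((m0 : ℝ) + k) * ((m0 : ℝ) + k - 1) * ((m0 : ℝ) + k - 2) :=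
          le_mul_of_one_le_right (mul_nonneg a5 (by linarith)) a1
  have h4 : D (m0 + k) ≤ -((c - dens A) * (((m0 + k : ℕ) : ℝ) * (((m0 + k : ℕ) : ℝ) - 1) *
      (((m0 + k : ℕ) : ℝ) - 2))) := by
    simp only [hD]
    linarith
  have h5 : (c - dens A) * (k : ℝ) ≤ (c - dens A) * (((m0 + k : ℕ) : ℝ) *
      (((m0 + k : ℕ) : ℝ) - 1) * (((m0 + k : ℕ) : ℝ) - 2)) :=
    mul_le_mul_of_nonneg_left h3 hpos.le
  linarith

/-- right angles do not matter in the limit -/
theorem dens_Ici_le : dens (Set.Ici (Real.pi / 2)) ≤ F (Real.pi / 2) := by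
  have h1 : Tendsto (fun n : ℕ => ratio n (Set.Ioi (Real.pi / 2)) + 2 * ((n : ℝ) ^ 2 /
      ((n : ℝ) * ((n : ℝ) - 1) * ((n : ℝ) - 2)))) atTop (𝓝 (F (Real.pi / 2))) := by
    have := (tendsto_ratio (Set.Ioi (Real.pi / 2))).add (tendsto_sq.const_mul 2)
    simpa [F] using this
  refine le_of_tendsto_of_tendsto (tendsto_ratio _) h1 ?_
  filter_upwards [eventually_ge_atTop 3] with n hn
  obtain ⟨S, h2, h3, h4⟩ := exists_minCnt n (Set.Ioi (Real.pi / 2))
  have h5 := minCnt_le h3 (Set.Ici (Real.pi / 2))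
  have h6 := cnt_Ioi_ge S h3
  rw [h2] at h5 h6
  rw [h4] at h6
  have h7 := denom_pos hn
  have h8 : (minCnt n (Set.Ici (Real.pi / 2)) : ℝ) ≤ minCnt n (Set.Ioi (Real.pi / 2)) +
      2 * (n : ℝ) ^ 2 := by
    have h9 : (minCnt n (Set.Ici (Real.pi / 2)) : ℤ) ≤ minCnt n (Set.Ioi (Real.pi / 2)) +
      2 * ((n : ℤ) * (n - 1)) := by
      have : (minCnt n (Set.Ici (Real.pi / 2)) : ℤ) ≤ cnt S (Set.Ici (Real.pi / 2)) := by
        exact_mod_cast h5
      linarith
    have h10 : (minCnt n (Set.Ici (Real.pi / 2)) : ℝ) ≤ minCnt n (Set.Ioi (Real.pi / 2)) +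
      2 * ((n : ℝ) * (n - 1)) := by exact_mod_cast h9
    have h11 : (0 : ℝ) ≤ n := Nat.cast_nonneg n
    nlinarith
  rw [ratio, ratio, ← mul_div_assoc, ← add_div]
  exact div_le_div_of_nonneg_right h8 h7.le

/-- the version for non-acute angles -/
theorem exists_opt_half (c : ℝ) (hc : F (Real.pi / 2) < c) (n0 : ℕ) :
    ∃ S : Finset Pt, GenPos S ∧ n0 ≤ S.card ∧
      (cnt S (Set.Ici (Real.pi / 2)) : ℝ) <
        c * ((S.card : ℝ) * ((S.card : ℝ) - 1) * ((S.card : ℝ) - 2)) ∧
      ∀ p ∈ S, (dg S (Set.Ici (Real.pi / 2)) p : ℝ) ≤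
        3 * c * (((S.card : ℝ) - 1) * ((S.card : ℝ) - 2)) :=
  exists_opt _ c (lt_of_le_of_lt dens_Ici_le hc) n0

/-- the triangle `v p q` is not acute -/
def NA {ι : Type*} (x y : ι → ℝ) (v p q : ι) : Prop :=
  dt x y v p q ≤ 0 ∨ dt x y p v q ≤ 0 ∨ dt x y q v p ≤ 0

theorem dt_symm {ι : Type*} (x y : ι → ℝ) (v p q : ι) : dt x y v p q = dt x y v q p := by
  unfold dt
  ring

theorem dt_add {ι : Type*} (x y : ι → ℝ) (v p q : ι) :
    dt x y v p q + dt x y p v q = (x p - x v) ^ 2 + (y p - y v) ^ 2 := by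
  unfold dt
  ring

theorem dt_pos_of (S : Finset Pt) (v p q : S) (hvp : v ≠ p) (h : dt (X S) (Y S) v p q ≤ 0) :
    0 < dt (X S) (Y S) p v q := by
  have h1 := dt_add (X S) (Y S) v p q
  have h2 : 0 < (X S p - X S v) ^ 2 + (Y S p - Y S v) ^ 2 := by
    by_contra h3
    push Not at h3
    have h4 : X S p - X S v = 0 := by nlinarith [sq_nonneg (X S p - X S v), sq_nonneg (Y S p - Y S v)]
    have h5 : Y S p - Y S v = 0 := by nlinarith [sq_nonneg (X S p - X S v), sq_nonneg (Y S p - Y S v)]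
    exact hvp (xy_inj S v p (by linarith) (by linarith))
  linarith

/-- the degree as a number of ordered pairs -/
theorem dg_eq (S : Finset Pt) (v : S) :
    dg S (Set.Ici (Real.pi / 2)) v.1 =
      #{pq : S × S | v ≠ pq.1 ∧ pq.1 ≠ pq.2 ∧ v ≠ pq.2 ∧ NA (X S) (Y S) v pq.1 pq.2} := by
  have key : ∀ p q r : S, q ≠ p → r ≠ p →
      (EuclideanGeometry.angle q.1 p.1 r.1 ∈ Set.Ici (Real.pi / 2) ↔ dt (X S) (Y S) p q r ≤ 0) :=
    fun p q r h1 h2 => angle_ge_iff S p q r h1 h2
  unfold dg
  refine card_bij (fun t _ => if v.1 = t.2.1 then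
      ((if h : t.1 ∈ S then ⟨t.1, h⟩ else v), (if h : t.2.2 ∈ S then ⟨t.2.2, h⟩ else v))
      else if v.1 = t.1 then
      ((if h : t.2.1 ∈ S then ⟨t.2.1, h⟩ else v), (if h : t.2.2 ∈ S then ⟨t.2.2, h⟩ else v))
      else ((if h : t.1 ∈ S then ⟨t.1, h⟩ else v), (if h : t.2.1 ∈ S then ⟨t.2.1, h⟩ else v)))
      ?_ ?_ ?_
  · rintro ⟨x, y, z⟩ ht
    simp only [mem_filter, mem_trip] at ht
    obtain ⟨⟨⟨hx, hy, hz⟩, hxy, hyz, hxz⟩, hA, hv⟩ := ht
    simp only [hx, hy, hz, dif_pos, mem_filter, mem_univ, true_and]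
    have kA := (key ⟨y, hy⟩ ⟨x, hx⟩ ⟨z, hz⟩ (fun e => hxy (congrArg Subtype.val e))
      (fun e => hyz (congrArg Subtype.val e).symm)).1 hA
    by_cases h1 : v.1 = y
    · have hv1 : v = ⟨y, hy⟩ := Subtype.ext h1
      subst hv1
      simp only [if_true]
      refine ⟨fun e => hxy (congrArg Subtype.val e).symm, fun e => hxz (congrArg Subtype.val e),
        fun e => hyz (congrArg Subtype.val e), Or.inl kA⟩
    · by_cases h2 : v.1 = x
      · have hv1 : v = ⟨x, hx⟩ := Subtype.ext h2
        subst hv1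
        simp only [if_neg h1, if_true]
        refine ⟨fun e => hxy (congrArg Subtype.val e), fun e => hyz (congrArg Subtype.val e),
          fun e => hxz (congrArg Subtype.val e), Or.inr (Or.inl kA)⟩
      · have h3 : v.1 = z := by
          rcases hv with h | h | h
          · exact absurd h h2
          · exact absurd h h1
          · exact h
        have hv1 : v = ⟨z, hz⟩ := Subtype.ext h3
        subst hv1
        simp only [if_neg h1, if_neg h2]
        refine ⟨fun e => hxz (congrArg Subtype.val e).symm, fun e => hxy (congrArg Subtype.val e),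
          fun e => hyz (congrArg Subtype.val e).symm, Or.inr (Or.inr ?_)⟩
        rw [dt_symm]
        exact kA
  · rintro ⟨x, y, z⟩ ht ⟨x', y', z'⟩ ht' he
    simp only [mem_filter, mem_trip] at ht ht'
    obtain ⟨⟨⟨hx, hy, hz⟩, hxy, hyz, hxz⟩, hA, hv⟩ := ht
    obtain ⟨⟨⟨hx', hy', hz'⟩, hxy', hyz', hxz'⟩, hA', hv'⟩ := ht'
    simp only [hx, hy, hz, hx', hy', hz', dif_pos] at he
    have kA := (key ⟨y, hy⟩ ⟨x, hx⟩ ⟨z, hz⟩ (fun e => hxy (congrArg Subtype.val e))
      (fun e => hyz (congrArg Subtype.val e).symm)).1 hA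
    have kA' := (key ⟨y', hy'⟩ ⟨x', hx'⟩ ⟨z', hz'⟩ (fun e => hxy' (congrArg Subtype.val e))
      (fun e => hyz' (congrArg Subtype.val e).symm)).1 hA'
    -- at most one vertex of a triangle is not acute
    have one : ∀ a b c : S, a ≠ b → dt (X S) (Y S) a b c ≤ 0 → dt (X S) (Y S) b a c ≤ 0 →
        False := fun a b c hab h1 h2 => by
      have := dt_pos_of S a b c hab h1
      linarith
    by_cases h1 : v.1 = y
    · by_cases h1' : v.1 = y'
      · simp only [if_pos h1, if_pos h1', Prod.mk.injEq, Subtype.mk.injEq] at he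
        rw [he.1, he.2, ← h1, h1']
      · by_cases h2' : v.1 = x'
        · simp only [if_pos h1, if_neg h1', if_pos h2', Prod.mk.injEq, Subtype.mk.injEq] at he
          exfalso
          obtain ⟨e1, e2⟩ := he
          subst e1 e2
          have e3 : y = x' := h1.symm.trans h2'
          subst e3
          exact one ⟨y, hy⟩ ⟨x, hx⟩ ⟨z, hz⟩ (fun e => hxy (congrArg Subtype.val e).symm) kA kA'
        · have h3' : v.1 = z' := by
            rcases hv' with h | h | h
            · exact absurd h h2'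
            · exact absurd h h1'
            · exact h
          simp only [if_pos h1, if_neg h1', if_neg h2', Prod.mk.injEq, Subtype.mk.injEq] at he
          exfalso
          obtain ⟨e1, e2⟩ := he
          subst e1 e2
          have e3 : y = z' := h1.symm.trans h3'
          subst e3
          rw [dt_symm] at kA kA'
          exact one ⟨y, hy⟩ ⟨z, hz⟩ ⟨x, hx⟩ (fun e => hyz (congrArg Subtype.val e)) kA kA'
    · by_cases h2 : v.1 = x
      · by_cases h1' : v.1 = y'
        · simp only [if_neg h1, if_pos h2, if_pos h1', Prod.mk.injEq, Subtype.mk.injEq] at he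
          exfalso
          obtain ⟨e1, e2⟩ := he
          subst e1 e2
          have e3 : y' = x := h1'.symm.trans h2
          subst e3
          exact one ⟨y', hy'⟩ ⟨y, hy⟩ ⟨z, hz⟩ (fun e => hxy (congrArg Subtype.val e)) kA' kA
        · by_cases h2' : v.1 = x'
          · simp only [if_neg h1, if_pos h2, if_neg h1', if_pos h2', Prod.mk.injEq,
              Subtype.mk.injEq] at he
            rw [he.1, he.2, ← h2, h2']
          · have h3' : v.1 = z' := by
              rcases hv' with h | h | h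
              · exact absurd h h2'
              · exact absurd h h1'
              · exact h
            simp only [if_neg h1, if_pos h2, if_neg h1', if_neg h2', Prod.mk.injEq,
              Subtype.mk.injEq] at he
            exfalso
            obtain ⟨e1, e2⟩ := he
            subst e1 e2
            have e3 : x = z' := h2.symm.trans h3'
            subst e3
            -- (x, y, z) and (y, z, x)
            rw [dt_symm] at kA
            exact one ⟨y, hy⟩ ⟨z, hz⟩ ⟨x, hx⟩ (fun e => hyz (congrArg Subtype.val e)) kA kA'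
      · have h3 : v.1 = z := by
          rcases hv with h | h | h
          · exact absurd h h2
          · exact absurd h h1
          · exact h
        by_cases h1' : v.1 = y'
        · simp only [if_neg h1, if_neg h2, if_pos h1', Prod.mk.injEq, Subtype.mk.injEq] at he
          exfalso
          obtain ⟨e1, e2⟩ := he
          subst e1 e2
          have e3 : z = y' := h3.symm.trans h1'
          subst e3
          rw [dt_symm] at kA kA'
          exact one ⟨y, hy⟩ ⟨z, hz⟩ ⟨x, hx⟩ (fun e => hyz (congrArg Subtype.val e)) kA kA'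
        · by_cases h2' : v.1 = x'
          · simp only [if_neg h1, if_neg h2, if_neg h1', if_pos h2', Prod.mk.injEq,
              Subtype.mk.injEq] at he
            exfalso
            obtain ⟨e1, e2⟩ := he
            subst e1 e2
            have e3 : z = x' := h3.symm.trans h2'
            subst e3
            rw [dt_symm] at kA'
            exact one ⟨y, hy⟩ ⟨x, hx⟩ ⟨z, hz⟩ (fun e => hxy (congrArg Subtype.val e).symm) kA kA'
          · have h3' : v.1 = z' := by
              rcases hv' with h | h | h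
              · exact absurd h h2'
              · exact absurd h h1'
              · exact h
            simp only [if_neg h1, if_neg h2, if_neg h1', if_neg h2', Prod.mk.injEq,
              Subtype.mk.injEq] at he
            rw [he.1, he.2, ← h3, h3']
  · rintro ⟨q, r⟩ h
    simp only [mem_filter, mem_univ, true_and] at h
    obtain ⟨hvq, hqr, hvr, h⟩ := h
    have hvq' : v.1 ≠ q.1 := fun e => hvq (Subtype.ext e)
    have hvr' : v.1 ≠ r.1 := fun e => hvr (Subtype.ext e)
    have hqr' : q.1 ≠ r.1 := fun e => hqr (Subtype.ext e)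
    rcases h with h | h | h
    · refine ⟨(q.1, v.1, r.1), ?_, ?_⟩
      · simp only [mem_filter, mem_trip]
        exact ⟨⟨⟨q.2, v.2, r.2⟩, hvq'.symm, hvr', hqr'⟩,
          (key v q r hvq.symm hvr.symm).2 h, Or.inr (Or.inl trivial)⟩
      · simp
    · refine ⟨(v.1, q.1, r.1), ?_, ?_⟩
      · simp only [mem_filter, mem_trip]
        exact ⟨⟨⟨v.2, q.2, r.2⟩, hvq', hqr', hvr'⟩,
          (key q v r hvq hqr.symm).2 h, Or.inl trivial⟩
      · simp [hvq']
    · refine ⟨(q.1, r.1, v.1), ?_, ?_⟩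
      · simp only [mem_filter, mem_trip]
        refine ⟨⟨⟨q.2, r.2, v.2⟩, hqr', hvr'.symm, hvq'.symm⟩,
          (key r q v hqr hvr).2 ?_, Or.inr (Or.inr trivial)⟩
        rw [dt_symm]
        exact h
      · simp [hvq', hvr']

end Pool.Agent.AKO
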