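import Pool.Agent.AKO.Blow
import Pool.Agent.AKO.Opt

set_option autoImplicit false

/-!
# The Lagrangian inequality and second order optimality
-/

namespace Pool.Agent.AKO

open Finset Classical Filter Topology Pool.Agent.MP_0af329_co Pool.Agent.AK EuclideanGeometry

theorem mem3 {S : Finset Pt} {t : Pt × Pt × Pt} (h : t ∈ trip S) :
    t.1 ∈ S ∧ t.2.1 ∈ S ∧ t.2.2 ∈ S := by
  obtain ⟨x, y, z⟩ := t
  exact (mem_trip.1 h).1

/-- Lagrangian inequality, natural weights -/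
theorem lag_nat (S : Finset Pt) (k : Pt → ℕ) :
    3 * dens (Set.Ici (Real.pi / 2)) * (∑ x ∈ S, (k x : ℝ)) ^ 3 ≤
      3 * ∑ t ∈ obt S, (k t.1 : ℝ) * k t.2.1 * k t.2.2 +
        (∑ x ∈ S, (k x : ℝ)) ^ 3 - ∑ t ∈ trip S, (k t.1 : ℝ) * k t.2.1 * k t.2.2 := by
  rcases Nat.eq_zero_or_pos (∑ x ∈ S, k x) with h0 | h0
  · have h1 : ∀ x ∈ S, k x = 0 := fun x hx => (sum_eq_zero_iff.1 h0) x hx
    have h2 : ∑ x ∈ S, (k x : ℝ) = 0 := sum_eq_zero fun x hx => by rw [h1 x hx, Nat.cast_zero]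
    have h3 : ∑ t ∈ obt S, (k t.1 : ℝ) * k t.2.1 * k t.2.2 = 0 := sum_eq_zero fun t ht => by
      rw [h1 _ (mem3 (mem_obt.1 ht).1).1]
      simp
    have h4 : ∑ t ∈ trip S, (k t.1 : ℝ) * k t.2.1 * k t.2.2 = 0 := sum_eq_zero fun t ht => by
      rw [h1 _ (mem3 ht).1]
      simp
    rw [h2, h3, h4]
    norm_num
  · set K : ℝ := ∑ x ∈ S, (k x : ℝ) with hK
    have hKpos : 0 < K := by
      have : (0 : ℝ) < ((∑ x ∈ S, k x : ℕ) : ℝ) := by exact_mod_cast h0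
      rwa [Nat.cast_sum] at this
    have hKc : ((∑ x ∈ S, k x : ℕ) : ℝ) = K := by rw [Nat.cast_sum]
    set C : ℝ := 3 * ∑ t ∈ obt S, (k t.1 : ℝ) * k t.2.1 * k t.2.2 + K ^ 3 -
      ∑ t ∈ trip S, (k t.1 : ℝ) * k t.2.1 * k t.2.2 with hC
    have h1 : dens (Set.Ici (Real.pi / 2)) ≤ C / (3 * K ^ 3) := by
      refine dens_le _ _ (∑ x ∈ S, k x) h0 ?_
      intro m _
      obtain ⟨S', hg, hcard, hcnt⟩ := blow_count S (fun x => m * k x)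
      refine ⟨S', ?_, hg, ?_⟩
      · rw [hcard, ← mul_sum, mul_comm]
      · rw [hKc]
        have e1 : ∑ t ∈ obt S, (((m * k t.1 : ℕ) : ℝ)) * ((m * k t.2.1 : ℕ) : ℝ) *
            ((m * k t.2.2 : ℕ) : ℝ) = (m : ℝ) ^ 3 * ∑ t ∈ obt S, (k t.1 : ℝ) * k t.2.1 * k t.2.2 := by
          rw [mul_sum]
          refine sum_congr rfl fun t _ => ?_
          push_cast
          ring
        have e2 : ∑ t ∈ trip S, (((m * k t.1 : ℕ) : ℝ)) * ((m * k t.2.1 : ℕ) : ℝ) *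
            ((m * k t.2.2 : ℕ) : ℝ) = (m : ℝ) ^ 3 * ∑ t ∈ trip S, (k t.1 : ℝ) * k t.2.1 * k t.2.2 := by
          rw [mul_sum]
          refine sum_congr rfl fun t _ => ?_
          push_cast
          ring
        have e3 : ∑ x ∈ S, ((m * k x : ℕ) : ℝ) = m * K := by
          rw [hK, mul_sum]
          refine sum_congr rfl fun t _ => ?_
          push_cast
          ring
        have e4 : 3 * (cnt S' (Set.Ici (Real.pi / 2)) : ℝ) ≤ (m : ℝ) ^ 3 * C := by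
          refine hcnt.trans (le_of_eq ?_)
          rw [e1, e2, e3, hC]
          ring
        have e5 : C / (3 * K ^ 3) * (K * m) ^ 3 = (m : ℝ) ^ 3 * C / 3 := by
          field_simp
        rw [e5]
        linarith
    rw [le_div_iff₀ (by positivity)] at h1
    linarith

/-- Lagrangian inequality, real weights -/
theorem lag_real (S : Finset Pt) (t : Pt → ℝ) (ht : ∀ x ∈ S, 0 ≤ t x) :
    3 * dens (Set.Ici (Real.pi / 2)) * (∑ x ∈ S, t x) ^ 3 ≤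
      3 * ∑ p ∈ obt S, t p.1 * t p.2.1 * t p.2.2 +
        (∑ x ∈ S, t x) ^ 3 - ∑ p ∈ trip S, t p.1 * t p.2.1 * t p.2.2 := by
  have hlim : ∀ x ∈ S, Tendsto (fun M : ℕ => (⌊t x * (M : ℝ)⌋₊ : ℝ) / (M : ℝ)) atTop (𝓝 (t x)) :=
    fun x hx => (tendsto_nat_floor_mul_div_atTop (ht x hx)).comp tendsto_natCast_atTop_atTop
  have l1 : Tendsto (fun M : ℕ => ∑ x ∈ S, (⌊t x * (M : ℝ)⌋₊ : ℝ) / (M : ℝ)) atTop
      (𝓝 (∑ x ∈ S, t x)) := tendsto_finsetSum _ fun x hx => hlim x hx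
  have l2 : Tendsto (fun M : ℕ => ∑ p ∈ obt S, ((⌊t p.1 * (M : ℝ)⌋₊ : ℝ) / (M : ℝ)) *
      ((⌊t p.2.1 * (M : ℝ)⌋₊ : ℝ) / (M : ℝ)) * ((⌊t p.2.2 * (M : ℝ)⌋₊ : ℝ) / (M : ℝ))) atTop
      (𝓝 (∑ p ∈ obt S, t p.1 * t p.2.1 * t p.2.2)) :=
    tendsto_finsetSum _ fun p hp => by
      obtain ⟨a, b, c⟩ := mem3 (mem_obt.1 hp).1
      exact ((hlim _ a).mul (hlim _ b)).mul (hlim _ c)
  have l3 : Tendsto (fun M : ℕ => ∑ p ∈ trip S, ((⌊t p.1 * (M : ℝ)⌋₊ : ℝ) / (M : ℝ)) *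
      ((⌊t p.2.1 * (M : ℝ)⌋₊ : ℝ) / (M : ℝ)) * ((⌊t p.2.2 * (M : ℝ)⌋₊ : ℝ) / (M : ℝ))) atTop
      (𝓝 (∑ p ∈ trip S, t p.1 * t p.2.1 * t p.2.2)) :=
    tendsto_finsetSum _ fun p hp => by
      obtain ⟨a, b, c⟩ := mem3 hp
      exact ((hlim _ a).mul (hlim _ b)).mul (hlim _ c)
  refine le_of_tendsto_of_tendsto ((l1.pow 3).const_mul (3 * dens (Set.Ici (Real.pi / 2))))
    (((l2.const_mul 3).add (l1.pow 3)).sub l3) ?_
  filter_upwards [eventually_ge_atTop 1] with M hM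
  have hM0 : (0 : ℝ) < M := by exact_mod_cast hM
  have h := lag_nat S (fun x => ⌊t x * (M : ℝ)⌋₊)
  have e1 : ∑ x ∈ S, (⌊t x * (M : ℝ)⌋₊ : ℝ) / (M : ℝ) =
      (∑ x ∈ S, (⌊t x * (M : ℝ)⌋₊ : ℝ)) / M := by rw [sum_div]
  have e2 : ∀ W : Finset (Pt × Pt × Pt), ∑ p ∈ W, ((⌊t p.1 * (M : ℝ)⌋₊ : ℝ) / (M : ℝ)) *
      ((⌊t p.2.1 * (M : ℝ)⌋₊ : ℝ) / (M : ℝ)) * ((⌊t p.2.2 * (M : ℝ)⌋₊ : ℝ) / (M : ℝ)) =
      (∑ p ∈ W, (⌊t p.1 * (M : ℝ)⌋₊ : ℝ) * (⌊t p.2.1 * (M : ℝ)⌋₊ : ℝ) *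
        (⌊t p.2.2 * (M : ℝ)⌋₊ : ℝ)) / (M : ℝ) ^ 3 := by
    intro W
    rw [sum_div]
    refine sum_congr rfl fun p _ => ?_
    field_simp
  simp only [e1, e2, div_pow]
  rw [← mul_div_assoc, ← mul_div_assoc, ← add_div, ← sub_div]
  exact div_le_div_of_nonneg_right h (by positivity)

/-- degrees as a sum over non-acute triples -/
theorem sum_dg_mul (S : Finset Pt) (f : Pt → ℝ) :
    ∑ p ∈ S, (dg S (Set.Ici (Real.pi / 2)) p : ℝ) * f p =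
      ∑ t ∈ obt S, (f t.1 + f t.2.1 + f t.2.2) := by
  have h1 : ∀ p ∈ S, (dg S (Set.Ici (Real.pi / 2)) p : ℝ) * f p =
      ∑ t ∈ obt S, if (p = t.1 ∨ p = t.2.1 ∨ p = t.2.2) then f p else 0 := by
    intro p _
    unfold dg
    rw [← nsmul_eq_mul, ← sum_const, ← sum_filter]
    refine sum_congr ?_ fun _ _ => rfl
    ext t
    simp only [mem_filter, mem_obt, Set.mem_Ici]
    tauto
  rw [sum_congr rfl h1, sum_comm]
  refine sum_congr rfl ?_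
  rintro ⟨x, y, z⟩ ht
  obtain ⟨⟨hx, hy, hz⟩, hxy, hyz, hxz⟩ := mem_trip.1 (mem_obt.1 ht).1
  rw [← sum_filter]
  have : S.filter (fun p => p = x ∨ p = y ∨ p = z) = {x, y, z} := by
    ext p
    simp only [Finset.mem_filter, Finset.mem_insert, Finset.mem_singleton]
    constructor
    · exact fun h => h.2
    · rintro (rfl | rfl | rfl)
      · exact ⟨hx, Or.inl rfl⟩
      · exact ⟨hy, Or.inr (Or.inl rfl)⟩
      · exact ⟨hz, Or.inr (Or.inr rfl)⟩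
  simp only
  rw [this, sum_insert (by simp [hxy, hxz]), sum_insert (by simp [hyz]), sum_singleton]
  ring

theorem cube_sub_trip (S : Finset Pt) (t : Pt → ℝ) (C : ℝ) (h0 : ∀ x ∈ S, 0 ≤ t x)
    (h1 : ∀ x ∈ S, t x ≤ C) :
    (∑ x ∈ S, t x) ^ 3 - ∑ p ∈ trip S, t p.1 * t p.2.1 * t p.2.2 ≤ 3 * C ^ 3 * (S.card : ℝ) ^ 2 := by
  have e1 : (∑ x ∈ S, t x) ^ 3 = ∑ p ∈ S ×ˢ S ×ˢ S, t p.1 * t p.2.1 * t p.2.2 := by
    rw [sum_product, pow_succ, pow_two, sum_mul_sum, sum_mul]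
    refine sum_congr rfl fun x _ => ?_
    rw [sum_product, sum_mul]
    refine sum_congr rfl fun y _ => ?_
    rw [mul_sum]
  have e2 : trip S ⊆ S ×ˢ S ×ˢ S := filter_subset _ _
  have e3 := sum_sdiff (f := fun p : Pt × Pt × Pt => t p.1 * t p.2.1 * t p.2.2) e2
  have e4 : ∑ p ∈ (S ×ˢ S ×ˢ S) \ trip S, t p.1 * t p.2.1 * t p.2.2 ≤
      ∑ p ∈ (S ×ˢ S ×ˢ S) \ trip S, C ^ 3 := by
    refine sum_le_sum fun p hp => ?_
    have hp1 := (mem_sdiff.1 hp).1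
    rw [mem_product, mem_product] at hp1
    obtain ⟨a, b, c⟩ := hp1
    have u1 := h1 _ a
    have u2 := h1 _ b
    have u3 := h1 _ c
    have v1 := h0 _ a
    have v2 := h0 _ b
    have v3 := h0 _ c
    calc t p.1 * t p.2.1 * t p.2.2 ≤ C * C * C := by
          refine mul_le_mul (mul_le_mul u1 u2 v2 (v1.trans u1)) u3 v3 ?_
          exact mul_nonneg (v1.trans u1) (v1.trans u1)
      _ = C ^ 3 := by ring
  rw [sum_const, nsmul_eq_mul] at e4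
  rcases S.eq_empty_or_nonempty with hS | ⟨x0, hx0⟩
  · subst hS
    simp [trip]
  have hC : 0 ≤ C := (h0 x0 hx0).trans (h1 x0 hx0)
  have e5 : (((S ×ˢ S ×ˢ S) \ trip S).card : ℝ) ≤ 3 * (S.card : ℝ) ^ 2 := by
    have h5 := card_sdiff_add_card_eq_card e2
    have h6 : ((((S ×ˢ S ×ˢ S) \ trip S).card : ℝ)) + (trip S).card = (S.card : ℝ) ^ 3 := by
      have : (((S ×ˢ S ×ˢ S) \ trip S).card) + (trip S).card = S.card ^ 3 := by
        rw [h5, card_product, card_product]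
        ring
      exact_mod_cast this
    rw [card_trip] at h6
    have h7 : (0 : ℝ) ≤ S.card := Nat.cast_nonneg _
    nlinarith
  have e6 : (((S ×ˢ S ×ˢ S) \ trip S).card : ℝ) * C ^ 3 ≤ 3 * (S.card : ℝ) ^ 2 * C ^ 3 :=
    mul_le_mul_of_nonneg_right e5 (by positivity)
  rw [e1, ← e3]
  linarith

theorem dens_Ici_le_one : dens (Set.Ici (Real.pi / 2)) ≤ 1 :=
  le_of_tendsto' (tendsto_ratio _) fun n => ratio_le_one n _

theorem dens_Ici_nonneg : 0 ≤ dens (Set.Ici (Real.pi / 2)) :=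
  ge_of_tendsto' (tendsto_ratio _) fun n => ratio_nonneg n _

/-- Second order inequality, raw form. -/
theorem second_raw (S : Finset Pt) (f : Pt → ℝ) (hf : ∀ x ∈ S, |f x| ≤ 1) (δ : ℝ) (hδ : 0 < δ)
    (hδ1 : δ ≤ 1) (c : ℝ) (hdg : ∀ p ∈ S, (dg S (Set.Ici (Real.pi / 2)) p : ℝ) ≤
      3 * c * (S.card : ℝ) ^ 2) (D : ℝ) (hD : D = dens (Set.Ici (Real.pi / 2))) :
    3 * D * ((S.card : ℝ) ^ 3 + 3 * (S.card : ℝ) ^ 2 * δ * ∑ x ∈ S, f x +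
        3 * (S.card : ℝ) * δ ^ 2 * (∑ x ∈ S, f x) ^ 2) ≤
      3 * cnt S (Set.Ici (Real.pi / 2)) +
      3 * δ * (3 * c * (S.card : ℝ) ^ 2 * ∑ x ∈ S, f x + (3 * c * (S.card : ℝ) ^ 3 -
        3 * cnt S (Set.Ici (Real.pi / 2)))) +
      3 * δ ^ 2 * ∑ t ∈ obt S, (f t.1 * f t.2.1 + f t.2.1 * f t.2.2 + f t.1 * f t.2.2) +
      6 * δ ^ 3 * (S.card : ℝ) ^ 3 + 24 * (S.card : ℝ) ^ 2 := by
  set n : ℝ := (S.card : ℝ) with hn
  set Fs : ℝ := ∑ x ∈ S, f x with hFs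
  have hn0 : 0 ≤ n := Nat.cast_nonneg _
  have hf1 : ∀ x ∈ S, f x ≤ 1 := fun x hx => (abs_le.1 (hf x hx)).2
  have hf2 : ∀ x ∈ S, -1 ≤ f x := fun x hx => (abs_le.1 (hf x hx)).1
  have hlag := lag_real S (fun x => 1 + δ * f x) (fun x hx => by nlinarith [hf2 x hx])
  have hcube := cube_sub_trip S (fun x => 1 + δ * f x) 2 (fun x hx => by nlinarith [hf2 x hx])
    (fun x hx => by nlinarith [hf1 x hx])
  have hT : ∑ x ∈ S, (1 + δ * f x) = n + δ * Fs := by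
    rw [sum_add_distrib, sum_const, nsmul_eq_mul, mul_one, ← mul_sum]
  have hexp : ∑ p ∈ obt S, (1 + δ * f p.1) * (1 + δ * f p.2.1) * (1 + δ * f p.2.2) =
      cnt S (Set.Ici (Real.pi / 2)) + δ * ∑ t ∈ obt S, (f t.1 + f t.2.1 + f t.2.2) +
      δ ^ 2 * ∑ t ∈ obt S, (f t.1 * f t.2.1 + f t.2.1 * f t.2.2 + f t.1 * f t.2.2) +
      δ ^ 3 * ∑ t ∈ obt S, f t.1 * f t.2.1 * f t.2.2 := by
    rw [cnt_eq_obt, card_eq_sum_ones]
    push_cast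
    rw [mul_sum, mul_sum, mul_sum, ← sum_add_distrib, ← sum_add_distrib, ← sum_add_distrib]
    refine sum_congr rfl fun t _ => ?_
    ring
  have h3 : ∑ t ∈ obt S, f t.1 * f t.2.1 * f t.2.2 ≤ n ^ 3 := by
    have h4 : ∑ t ∈ obt S, f t.1 * f t.2.1 * f t.2.2 ≤ ∑ t ∈ obt S, (1 : ℝ) := by
      refine sum_le_sum fun t ht => ?_
      obtain ⟨a, b, c⟩ := mem3 (mem_obt.1 ht).1
      have := abs_mul (f t.1 * f t.2.1) (f t.2.2)
      have h5 := abs_mul (f t.1) (f t.2.1)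
      have h6 : |f t.1 * f t.2.1 * f t.2.2| ≤ 1 := by
        rw [this, h5]
        exact mul_le_one₀ (mul_le_one₀ (hf _ a) (abs_nonneg _) (hf _ b)) (abs_nonneg _) (hf _ c)
      exact (abs_le.1 h6).2
    refine h4.trans ?_
    rw [sum_const, nsmul_eq_mul, mul_one]
    have h5 : (obt S).card ≤ S.card ^ 3 := by
      unfold obt trip
      refine (card_filter_le _ _).trans ((card_filter_le _ _).trans ?_)
      rw [card_product, card_product]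
      exact le_of_eq (by ring)
    rw [hn]
    exact_mod_cast h5
  have hE : ∑ t ∈ obt S, (f t.1 + f t.2.1 + f t.2.2) ≤ 3 * c * n ^ 2 * Fs +
      (3 * c * n ^ 3 - 3 * cnt S (Set.Ici (Real.pi / 2))) := by
    rw [← sum_dg_mul]
    have h5 : ∑ p ∈ S, (dg S (Set.Ici (Real.pi / 2)) p : ℝ) = 3 * cnt S (Set.Ici (Real.pi / 2)) := by
      exact_mod_cast sum_dg S (Set.Ici (Real.pi / 2))
    have h6 : ∀ p ∈ S, (dg S (Set.Ici (Real.pi / 2)) p : ℝ) * f p ≤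
        3 * c * n ^ 2 * f p + (3 * c * n ^ 2 - dg S (Set.Ici (Real.pi / 2)) p) := by
      intro p hp
      have a1 := hdg p hp
      have a2 := hf2 p hp
      nlinarith
    refine (sum_le_sum h6).trans (le_of_eq ?_)
    rw [sum_add_distrib, ← mul_sum, sum_sub_distrib, h5, sum_const, nsmul_eq_mul]
    ring
  have hFn : |Fs| ≤ n := by
    rw [hFs, hn]
    refine (abs_sum_le_sum_abs _ _).trans ?_
    refine (sum_le_sum hf).trans (le_of_eq ?_)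
    rw [sum_const, nsmul_eq_mul, mul_one]
  have hD1 : D ≤ 1 := hD ▸ dens_Ici_le_one
  have hD0 : 0 ≤ D := hD ▸ dens_Ici_nonneg
  have hF3 : -(n ^ 3) ≤ D * Fs ^ 3 := by
    have b1 : |Fs ^ 3| ≤ n ^ 3 := by
      rw [abs_pow]
      exact pow_le_pow_left₀ (abs_nonneg _) hFn 3
    have b2 : |D * Fs ^ 3| ≤ n ^ 3 := by
      rw [abs_mul, abs_of_nonneg hD0]
      calc D * |Fs ^ 3| ≤ 1 * |Fs ^ 3| := mul_le_mul_of_nonneg_right hD1 (abs_nonneg _)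
        _ ≤ n ^ 3 := by rw [one_mul]; exact b1
    exact (abs_le.1 b2).1
  rw [hT] at hlag hcube
  rw [hexp] at hlag
  rw [← hD] at hlag
  have hδ3 : 0 < δ ^ 3 := by positivity
  have m1 : δ ^ 3 * ∑ t ∈ obt S, f t.1 * f t.2.1 * f t.2.2 ≤ δ ^ 3 * n ^ 3 :=
    mul_le_mul_of_nonneg_left h3 hδ3.le
  have m2 : δ * ∑ t ∈ obt S, (f t.1 + f t.2.1 + f t.2.2) ≤ δ * (3 * c * n ^ 2 * Fs +
      (3 * c * n ^ 3 - 3 * cnt S (Set.Ici (Real.pi / 2)))) := mul_le_mul_of_nonneg_left hE hδ.le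
  have m3 : -(δ ^ 3 * n ^ 3) ≤ δ ^ 3 * (D * Fs ^ 3) := by
    have := mul_le_mul_of_nonneg_left hF3 hδ3.le
    linarith
  have e9 : 3 * D * (n + δ * Fs) ^ 3 = 3 * D * (n ^ 3 + 3 * n ^ 2 * δ * Fs +
      3 * n * δ ^ 2 * Fs ^ 2) + 3 * (δ ^ 3 * (D * Fs ^ 3)) := by ring
  rw [e9] at hlag
  have hcube' : (n + δ * Fs) ^ 3 - ∑ p ∈ trip S, (1 + δ * f p.1) * (1 + δ * f p.2.1) *
      (1 + δ * f p.2.2) ≤ 24 * n ^ 2 := by
    refine hcube.trans (le_of_eq ?_)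
    rw [hn]
    norm_num
  linarith

theorem near_opt (D η : ℝ) (hη : 0 < η) (hD : D = dens (Set.Ici (Real.pi / 2))) :
    ∃ n1 : ℕ, ∀ S : Finset Pt, GenPos S → n1 ≤ S.card →
      (D - η) * (S.card : ℝ) ^ 3 ≤ cnt S (Set.Ici (Real.pi / 2)) := by
  have h1 : ∀ᶠ n : ℕ in atTop, D - η / 2 < ratio n (Set.Ici (Real.pi / 2)) := by
    refine (tendsto_ratio (Set.Ici (Real.pi / 2))).eventually (lt_mem_nhds ?_)
    rw [← hD]
    linarith
  obtain ⟨n2, hn2⟩ := eventually_atTop.1 h1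
  obtain ⟨n3, hn3⟩ := exists_nat_gt (6 / η)
  refine ⟨max (max n2 n3) 3, fun S hS hcard => ?_⟩
  have a1 : n2 ≤ S.card := le_trans (le_trans (le_max_left _ _) (le_max_left _ _)) hcard
  have a2 : n3 ≤ S.card := le_trans (le_trans (le_max_right _ _) (le_max_left _ _)) hcard
  have a3 : 3 ≤ S.card := le_trans (le_max_right _ _) hcard
  have h2 := hn2 S.card a1
  have h3 := minCnt_le hS (Set.Ici (Real.pi / 2))
  have h4 := denom_pos a3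
  rw [ratio, lt_div_iff₀ h4] at h2
  have h5 : (minCnt S.card (Set.Ici (Real.pi / 2)) : ℝ) ≤ cnt S (Set.Ici (Real.pi / 2)) := by
    exact_mod_cast h3
  have h6 : (6 / η : ℝ) < S.card := lt_of_lt_of_le hn3 (by exact_mod_cast a2)
  rw [div_lt_iff₀ hη] at h6
  have hD1 : D ≤ 1 := hD ▸ dens_Ici_le_one
  have h7 : (3 : ℝ) ≤ S.card := by exact_mod_cast a3
  rcases le_or_gt (D - η / 2) 0 with h8 | h8
  · have : (D - η) * (S.card : ℝ) ^ 3 ≤ 0 :=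
      mul_nonpos_of_nonpos_of_nonneg (by linarith) (by positivity)
    exact this.trans (Nat.cast_nonneg _)
  · set n : ℝ := (S.card : ℝ) with hn
    have h9 : n ^ 3 - 3 * n ^ 2 ≤ n * (n - 1) * (n - 2) := by nlinarith
    have h10 : (D - η / 2) * (n ^ 3 - 3 * n ^ 2) ≤ (D - η / 2) * (n * (n - 1) * (n - 2)) :=
      mul_le_mul_of_nonneg_left h9 h8.le
    have h11 : (D - η / 2) * (3 * n ^ 2) ≤ 3 * n ^ 2 := by
      have : (D - η / 2) * (3 * n ^ 2) ≤ 1 * (3 * n ^ 2) :=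
        mul_le_mul_of_nonneg_right (by linarith) (by positivity)
      linarith
    have h12 : 6 * n ^ 2 ≤ η * n ^ 3 := by
      have h13 : 6 * n ^ 2 ≤ (n * η) * n ^ 2 := mul_le_mul_of_nonneg_right h6.le (by positivity)
      calc 6 * n ^ 2 ≤ (n * η) * n ^ 2 := h13
        _ = η * n ^ 3 := by ring
    linarith

/-- Nearly optimal sets: small count, small degrees, and the second order inequality. -/
theorem exists_opt2 (η : ℝ) (hη : 0 < η) (n0 : ℕ) :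
    ∃ S : Finset Pt, GenPos S ∧ n0 ≤ S.card ∧
      (cnt S (Set.Ici (Real.pi / 2)) : ℝ) ≤
        (dens (Set.Ici (Real.pi / 2)) + η) * (S.card : ℝ) ^ 3 ∧
      (∀ p ∈ S, (dg S (Set.Ici (Real.pi / 2)) p : ℝ) ≤
        3 * (dens (Set.Ici (Real.pi / 2)) + η) * (S.card : ℝ) ^ 2) ∧
      ∀ f : Pt → ℝ, (∀ x ∈ S, |f x| ≤ 1) →
        3 * dens (Set.Ici (Real.pi / 2)) * (S.card : ℝ) * (∑ x ∈ S, f x) ^ 2 -
          η * (S.card : ℝ) ^ 3 ≤
        ∑ t ∈ obt S, (f t.1 * f t.2.1 + f t.2.1 * f t.2.2 + f t.1 * f t.2.2) := by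
  set D : ℝ := dens (Set.Ici (Real.pi / 2)) with hD
  -- parameters
  set δ : ℝ := min (η / 30) (1 / 30) with hδ
  have hδ0 : 0 < δ := by
    rw [hδ]
    exact lt_min (by linarith) (by norm_num)
  have hδη : δ ≤ η / 30 := min_le_left _ _
  have hδ1 : δ ≤ 1 / 30 := min_le_right _ _
  set ε : ℝ := δ ^ 3 with hε
  have hε0 : 0 < ε := by positivity
  have hεη : ε ≤ η := by
    have : δ ^ 3 ≤ δ := by nlinarith [sq_nonneg δ, mul_pos hδ0 hδ0]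
    linarith
  obtain ⟨n1, hn1⟩ := near_opt D ε hε0 hD
  obtain ⟨n2, hn2⟩ := exists_nat_gt (20 / δ ^ 3)
  obtain ⟨S, hS, hcard, hcnt, hdg⟩ := exists_opt (Set.Ici (Real.pi / 2)) (D + ε)
    (by linarith) (max (max n0 n1) (max n2 3))
  have a0 : n0 ≤ S.card := le_trans (le_trans (le_max_left _ _) (le_max_left _ _)) hcard
  have a1 : n1 ≤ S.card := le_trans (le_trans (le_max_right _ _) (le_max_left _ _)) hcard
  have a2 : n2 ≤ S.card := le_trans (le_trans (le_max_left _ _) (le_max_right _ _)) hcard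
  have a3 : 3 ≤ S.card := le_trans (le_trans (le_max_right _ _) (le_max_right _ _)) hcard
  have hlow := hn1 S hS a1
  have hD0 : 0 ≤ D := dens_Ici_nonneg
  have hD1 : D ≤ 1 := dens_Ici_le_one
  set n : ℝ := (S.card : ℝ) with hn
  have hn3 : (3 : ℝ) ≤ n := by
    rw [hn]
    exact_mod_cast a3
  have hn20 : 20 ≤ n * δ ^ 3 := by
    have a2' : (n2 : ℝ) ≤ n := by
      rw [hn]
      exact_mod_cast a2
    have h6 : (20 / δ ^ 3 : ℝ) < n := lt_of_lt_of_le hn2 a2'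
    rw [div_lt_iff₀ (by positivity)] at h6
    linarith
  have c1 : (n - 1) * (n - 2) ≤ n ^ 2 := by nlinarith
  have c2 : n * (n - 1) * (n - 2) ≤ n ^ 3 := by
    have := mul_le_mul_of_nonneg_left c1 (show 0 ≤ n by linarith)
    linarith
  have hcnt' : (cnt S (Set.Ici (Real.pi / 2)) : ℝ) ≤ (D + ε) * n ^ 3 := by
    have := mul_le_mul_of_nonneg_left c2 (show 0 ≤ D + ε by linarith)
    linarith
  have hdg' : ∀ p ∈ S, (dg S (Set.Ici (Real.pi / 2)) p : ℝ) ≤ 3 * (D + ε) * n ^ 2 := by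
    intro p hp
    have h1 := hdg p hp
    have := mul_le_mul_of_nonneg_left c1 (show 0 ≤ 3 * (D + ε) by linarith)
    linarith
  refine ⟨S, hS, a0, ?_, ?_, ?_⟩
  · have : (D + ε) * n ^ 3 ≤ (D + η) * n ^ 3 :=
      mul_le_mul_of_nonneg_right (by linarith) (by positivity)
    linarith
  · intro p hp
    have h1 := hdg' p hp
    have : 3 * (D + ε) * n ^ 2 ≤ 3 * (D + η) * n ^ 2 :=
      mul_le_mul_of_nonneg_right (by linarith) (by positivity)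
    linarith
  intro f hf
  have h := second_raw S f hf δ hδ0 (by linarith) (D + ε) hdg' D hD
  set Fs : ℝ := ∑ x ∈ S, f x with hFs
  set Q : ℝ := ∑ t ∈ obt S, (f t.1 * f t.2.1 + f t.2.1 * f t.2.2 + f t.1 * f t.2.2) with hQ
  have hFn : |Fs| ≤ n := by
    rw [hFs, hn]
    refine (abs_sum_le_sum_abs _ _).trans ?_
    refine (sum_le_sum hf).trans (le_of_eq ?_)
    rw [sum_const, nsmul_eq_mul, mul_one]
  have hFn1 := (abs_le.1 hFn).2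
  set N : ℝ := (cnt S (Set.Ici (Real.pi / 2)) : ℝ) with hN
  change 3 * D * (n ^ 3 + 3 * n ^ 2 * δ * Fs + 3 * n * δ ^ 2 * Fs ^ 2) ≤
    3 * N + 3 * δ * (3 * (D + ε) * n ^ 2 * Fs + (3 * (D + ε) * n ^ 3 - 3 * N)) +
      3 * δ ^ 2 * Q + 6 * δ ^ 3 * n ^ 3 + 24 * n ^ 2 at h
  -- δ² Q ≥ ...
  have k1 : n ^ 2 * Fs ≤ n ^ 3 := by
    have := mul_le_mul_of_nonneg_left hFn1 (sq_nonneg n)
    calc n ^ 2 * Fs ≤ n ^ 2 * n := this
      _ = n ^ 3 := by ring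
  have k2 : ε * (n ^ 2 * Fs) ≤ ε * n ^ 3 := mul_le_mul_of_nonneg_left k1 hε0.le
  have k3 : δ * (3 * (D + ε) * n ^ 3 - 3 * N) ≤ δ * (6 * ε * n ^ 3) := by
    refine mul_le_mul_of_nonneg_left ?_ hδ0.le
    linarith
  have k4 : δ * (ε * (n ^ 2 * Fs)) ≤ δ * (ε * n ^ 3) := mul_le_mul_of_nonneg_left k2 hδ0.le
  have key : δ ^ 2 * (3 * D * n * Fs ^ 2) ≤ δ ^ 2 * Q + (ε * n ^ 3 + 9 * δ * ε * n ^ 3 +
      2 * δ ^ 3 * n ^ 3 + 8 * n ^ 2) := by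
    have e1 : 3 * D * (n ^ 3 + 3 * n ^ 2 * δ * Fs + 3 * n * δ ^ 2 * Fs ^ 2) =
      3 * D * n ^ 3 + 9 * δ * D * (n ^ 2 * Fs) + 3 * (δ ^ 2 * (3 * D * n * Fs ^ 2)) := by ring
    have e2 : 3 * δ * (3 * (D + ε) * n ^ 2 * Fs + (3 * (D + ε) * n ^ 3 - 3 * N)) =
      9 * δ * D * (n ^ 2 * Fs) + 9 * (δ * (ε * (n ^ 2 * Fs))) +
        3 * (δ * (3 * (D + ε) * n ^ 3 - 3 * N)) := by ring
    rw [e1, e2] at h
    linarith
  have k5 : 8 * n ^ 2 ≤ δ ^ 3 * n ^ 3 := by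
    have : 20 * n ^ 2 ≤ (n * δ ^ 3) * n ^ 2 := mul_le_mul_of_nonneg_right hn20 (sq_nonneg n)
    have e : (n * δ ^ 3) * n ^ 2 = δ ^ 3 * n ^ 3 := by ring
    have := sq_nonneg n
    linarith
  have k6 : ε * n ^ 3 + 9 * δ * ε * n ^ 3 + 2 * δ ^ 3 * n ^ 3 + 8 * n ^ 2 ≤
      δ ^ 2 * (η * n ^ 3) := by
    have hn33 : 0 ≤ n ^ 3 := by positivity
    have e1 : ε * n ^ 3 + 9 * δ * ε * n ^ 3 + 2 * δ ^ 3 * n ^ 3 + 8 * n ^ 2 ≤
        (13 * δ ^ 3) * n ^ 3 := by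
      have e3 : 9 * δ * ε * n ^ 3 ≤ 9 * (δ ^ 3 * n ^ 3) := by
        have : δ * (δ ^ 3 * n ^ 3) ≤ 1 * (δ ^ 3 * n ^ 3) :=
          mul_le_mul_of_nonneg_right (by linarith) (by positivity)
        rw [hε]
        linarith
      rw [hε] at e3 ⊢
      linarith
    have e4 : 13 * δ ^ 3 ≤ δ ^ 2 * η := by
      have : δ ^ 2 * (13 * δ) ≤ δ ^ 2 * η := mul_le_mul_of_nonneg_left (by linarith) (sq_nonneg δ)
      linarith
    have := mul_le_mul_of_nonneg_right e4 hn33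
    linarith
  have key2 : δ ^ 2 * (3 * D * n * Fs ^ 2 - η * n ^ 3) ≤ δ ^ 2 * Q := by linarith
  exact le_of_mul_le_mul_left key2 (by positivity)

end Pool.Agent.AKO
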