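import Pool.Agent.AKO.Gen
import Pool.Agent.AKO.Cod

set_option autoImplicit false

/-!
# Nearly optimal sets without right angles, with two-sided degree bounds
-/

namespace Pool.Agent.AKO

open Finset Classical Filter Topology Pool.Agent.MP_0af329_co Pool.Agent.AK EuclideanGeometry

/-- A generic perturbation does not increase the count and the degrees. -/
theorem exists_pert (S : Finset Pt) :
    ∃ (S' : Finset Pt) (π : Pt → Pt), GenPos S' ∧ NoRight S' ∧ S'.card = S.card ∧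
      (∀ p ∈ S', π p ∈ S) ∧ cnt S' (Set.Ici (Real.pi / 2)) ≤ cnt S (Set.Ici (Real.pi / 2)) ∧
      ∀ p ∈ S', dg S' (Set.Ici (Real.pi / 2)) p ≤ dg S (Set.Ici (Real.pi / 2)) (π p) := by
  obtain ⟨ε, hε, hsm⟩ := exists_small S 1 0
  obtain ⟨S', π, hB⟩ := exists_isBlow S (fun _ => 1) ε hε
  have hinj : ∀ p ∈ S', ∀ q ∈ S', π p = π q → p = q := by
    intro p hp q hq h
    have h1 := hB.card (π p) (hB.maps p hp)
    obtain ⟨a, ha⟩ := card_eq_one.1 h1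
    have h2 : p ∈ ({r ∈ S' | π r = π p} : Finset Pt) := mem_filter.2 ⟨hp, rfl⟩
    have h3 : q ∈ ({r ∈ S' | π r = π p} : Finset Pt) := mem_filter.2 ⟨hq, h.symm⟩
    rw [ha, mem_singleton] at h2 h3
    rw [h2, h3]
  have hcard : S'.card = S.card := by
    have h1 := card_eq_sum_card_fiberwise (f := π) (s := S') (t := S) hB.maps
    rw [h1, sum_congr rfl (fun x hx => hB.card x hx), sum_const, smul_eq_mul, mul_one]
  have hmap : ∀ x ∈ S', ∀ y ∈ S', ∀ z ∈ S', x ≠ y → y ≠ z → x ≠ z → Real.pi / 2 ≤ ∠ x y z →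
      Real.pi / 2 ≤ ∠ (π x) (π y) (π z) := by
    intro x hx y hy z hz h1 h2 h3 h4
    by_contra h5
    push Not at h5
    have := hsm.lt _ (hB.maps x hx) _ (hB.maps y hy) _ (hB.maps z hz)
      (fun e => h1 (hinj x hx y hy e)) (fun e => h2 (hinj y hy z hz e))
      (fun e => h3 (hinj x hx z hz e)) h5 x y z (hB.near x hx) (hB.near y hy) (hB.near z hz)
    linarith
  refine ⟨S', π, hB.gen, hB.nr, hcard, hB.maps, ?_, ?_⟩
  · rw [cnt_eq_obt, cnt_eq_obt]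
    refine card_le_card_of_injOn (fun t => (π t.1, π t.2.1, π t.2.2)) ?_ ?_
    · rintro ⟨x, y, z⟩ ht
      have ht' := mem_obt.1 (mem_coe.1 ht)
      obtain ⟨⟨hx, hy, hz⟩, h1, h2, h3⟩ := mem_trip.1 ht'.1
      exact mem_coe.2 (mem_obt.2 ⟨mem_trip.2 ⟨⟨hB.maps x hx, hB.maps y hy, hB.maps z hz⟩,
        fun e => h1 (hinj x hx y hy e), fun e => h2 (hinj y hy z hz e),
        fun e => h3 (hinj x hx z hz e)⟩, hmap x hx y hy z hz h1 h2 h3 ht'.2⟩)
    · rintro ⟨x, y, z⟩ ht ⟨x', y', z'⟩ ht' he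
      have h1 := mem_obt.1 (mem_coe.1 ht)
      have h2 := mem_obt.1 (mem_coe.1 ht')
      obtain ⟨⟨hx, hy, hz⟩, -⟩ := mem_trip.1 h1.1
      obtain ⟨⟨hx', hy', hz'⟩, -⟩ := mem_trip.1 h2.1
      simp only [Prod.mk.injEq] at he
      rw [hinj x hx x' hx' he.1, hinj y hy y' hy' he.2.1, hinj z hz z' hz' he.2.2]
  · intro p hp
    unfold dg
    refine card_le_card_of_injOn (fun t => (π t.1, π t.2.1, π t.2.2)) ?_ ?_
    · rintro ⟨x, y, z⟩ ht
      have ht' := mem_filter.1 (mem_coe.1 ht)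
      obtain ⟨⟨hx, hy, hz⟩, h1, h2, h3⟩ := mem_trip.1 ht'.1
      refine mem_coe.2 (mem_filter.2 ⟨mem_trip.2 ⟨⟨hB.maps x hx, hB.maps y hy, hB.maps z hz⟩,
        fun e => h1 (hinj x hx y hy e), fun e => h2 (hinj y hy z hz e),
        fun e => h3 (hinj x hx z hz e)⟩, hmap x hx y hy z hz h1 h2 h3 ht'.2.1, ?_⟩)
      rcases ht'.2.2 with h | h | h
      · exact Or.inl (congrArg π h)
      · exact Or.inr (Or.inl (congrArg π h))
      · exact Or.inr (Or.inr (congrArg π h))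
    · rintro ⟨x, y, z⟩ ht ⟨x', y', z'⟩ ht' he
      have h1 := mem_filter.1 (mem_coe.1 ht)
      have h2 := mem_filter.1 (mem_coe.1 ht')
      obtain ⟨⟨hx, hy, hz⟩, -⟩ := mem_trip.1 h1.1
      obtain ⟨⟨hx', hy', hz'⟩, -⟩ := mem_trip.1 h2.1
      simp only [Prod.mk.injEq] at he
      rw [hinj x hx x' hx' he.1, hinj y hy y' hy' he.2.1, hinj z hz z' hz' he.2.2]

/-- weight `1 + K` at `v`, weight `1` elsewhere -/
noncomputable def bump (v : Pt) (K : ℝ) (x : Pt) : ℝ := if v = x then 1 + K else 1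

theorem prod_bump (S : Finset Pt) (v : Pt) (K : ℝ) {t : Pt × Pt × Pt} (ht : t ∈ trip S) :
    bump v K t.1 * bump v K t.2.1 * bump v K t.2.2 =
      1 + K * (if v = t.1 ∨ v = t.2.1 ∨ v = t.2.2 then 1 else 0) := by
  obtain ⟨x, y, z⟩ := t
  obtain ⟨-, hxy, hyz, hxz⟩ := mem_trip.1 ht
  unfold bump
  simp only
  by_cases h1 : v = x
  · have h2 : v ≠ y := fun h => hxy (h1.symm.trans h)
    have h3 : v ≠ z := fun h => hxz (h1.symm.trans h)
    rw [if_pos h1, if_neg h2, if_neg h3, if_pos (Or.inl h1)]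
    ring
  · by_cases h2 : v = y
    · have h3 : v ≠ z := fun h => hyz (h2.symm.trans h)
      rw [if_neg h1, if_pos h2, if_neg h3, if_pos (Or.inr (Or.inl h2))]
      ring
    · by_cases h3 : v = z
      · rw [if_neg h1, if_neg h2, if_pos h3, if_pos (Or.inr (Or.inr h3))]
        ring
      · rw [if_neg h1, if_neg h2, if_neg h3, if_neg (by tauto)]
        ring


theorem sum_obt_bump (S : Finset Pt) (v : Pt) (K : ℝ) :
    ∑ t ∈ obt S, bump v K t.1 * bump v K t.2.1 * bump v K t.2.2 =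
      cnt S (Set.Ici (Real.pi / 2)) + K * dg S (Set.Ici (Real.pi / 2)) v := by
  have h1 : ∀ t ∈ obt S, bump v K t.1 * bump v K t.2.1 * bump v K t.2.2 =
      1 + K * (if v = t.1 ∨ v = t.2.1 ∨ v = t.2.2 then 1 else 0) :=
    fun t ht => prod_bump S v K (mem_obt.1 ht).1
  rw [sum_congr rfl h1, sum_add_distrib, ← mul_sum, sum_const, nsmul_eq_mul, mul_one,
    cnt_eq_obt, ← sum_filter, sum_const, nsmul_eq_mul, mul_one]
  congr 3
  unfold dg
  congr 1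
  ext t
  simp only [mem_filter, mem_obt, Set.mem_Ici]
  tauto

theorem cnt_univ (S : Finset Pt) : cnt S Set.univ = (trip S).card := by
  unfold cnt
  congr 1
  ext t
  simp

theorem dg_univ (S : Finset Pt) {v : Pt} (hv : v ∈ S) :
    (dg S Set.univ v : ℝ) = 3 * ((S.card : ℝ) - 1) * ((S.card : ℝ) - 2) := by
  have h1 : cnt (S.erase v) Set.univ + dg S Set.univ v = cnt S Set.univ := cnt_erase S Set.univ v
  have h2 : (cnt (S.erase v) Set.univ : ℝ) + dg S Set.univ v = cnt S Set.univ := by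
    exact_mod_cast h1
  rw [cnt_univ, cnt_univ, card_trip, card_trip, card_erase_of_mem hv] at h2
  have h3 : 1 ≤ S.card := card_pos.2 ⟨v, hv⟩
  have h4 : ((S.card - 1 : ℕ) : ℝ) = (S.card : ℝ) - 1 := by
    rw [Nat.cast_sub h3, Nat.cast_one]
  rw [h4] at h2
  linarith

theorem sum_trip_bump (S : Finset Pt) {v : Pt} (hv : v ∈ S) (K : ℝ) :
    ∑ t ∈ trip S, bump v K t.1 * bump v K t.2.1 * bump v K t.2.2 =
      (S.card : ℝ) * ((S.card : ℝ) - 1) * ((S.card : ℝ) - 2) +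
        K * (3 * ((S.card : ℝ) - 1) * ((S.card : ℝ) - 2)) := by
  have h1 : ∀ t ∈ trip S, bump v K t.1 * bump v K t.2.1 * bump v K t.2.2 =
      1 + K * (if v = t.1 ∨ v = t.2.1 ∨ v = t.2.2 then 1 else 0) :=
    fun t ht => prod_bump S v K ht
  rw [sum_congr rfl h1, sum_add_distrib, ← mul_sum, sum_const, nsmul_eq_mul, mul_one,
    card_trip, ← dg_univ S hv, ← sum_filter, sum_const, nsmul_eq_mul, mul_one]
  congr 3
  unfold dg
  congr 1
  ext t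
  simp

theorem sum_bump (S : Finset Pt) {v : Pt} (hv : v ∈ S) (K : ℝ) :
    ∑ x ∈ S, bump v K x = (S.card : ℝ) + K := by
  have h1 : ∀ x ∈ S, bump v K x = 1 + (if v = x then K else 0) := by
    intro x _
    unfold bump
    split_ifs <;> simp
  rw [sum_congr rfl h1, sum_add_distrib, sum_const, nsmul_eq_mul, mul_one, sum_ite_eq,
    if_pos hv]

/-- the degree from below, raw form -/
theorem dg_raw (S : Finset Pt) {v : Pt} (hv : v ∈ S) (K : ℝ) (hK : 0 ≤ K) :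
    3 * dens (Set.Ici (Real.pi / 2)) * ((S.card : ℝ) + K) ^ 3 ≤
      3 * (cnt S (Set.Ici (Real.pi / 2)) + K * dg S (Set.Ici (Real.pi / 2)) v) +
        (3 * (S.card : ℝ) * K ^ 2 + K ^ 3 + 3 * (S.card : ℝ) ^ 2 + 9 * K * (S.card : ℝ)) := by
  have h := lag_real S (bump v K) (fun x _ => by unfold bump; split_ifs <;> linarith)
  rw [sum_obt_bump, sum_trip_bump S hv, sum_bump S hv] at h
  have h0 : (0 : ℝ) ≤ S.card := Nat.cast_nonneg _
  nlinarith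

/-- Nearly optimal sets have no small degrees. -/
theorem dg_low (η : ℝ) (hη : 0 < η) (hη1 : η ≤ 1) (S : Finset Pt)
    (hcnt : (cnt S (Set.Ici (Real.pi / 2)) : ℝ) ≤
      (dens (Set.Ici (Real.pi / 2)) + η ^ 2 / 8) * (S.card : ℝ) ^ 3)
    (hn : 8 / η ^ 2 ≤ (S.card : ℝ)) :
    ∀ v ∈ S, 3 * (dens (Set.Ici (Real.pi / 2)) - η) * (S.card : ℝ) ^ 2 ≤
      dg S (Set.Ici (Real.pi / 2)) v := by
  intro v hv
  set n : ℝ := (S.card : ℝ) with hnn
  set D : ℝ := dens (Set.Ici (Real.pi / 2)) with hD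
  have hD0 : 0 ≤ D := dens_Ici_nonneg
  have hn0 : 0 < n := lt_of_lt_of_le (by positivity) hn
  have hn8 : 8 ≤ n * η ^ 2 := by
    rwa [div_le_iff₀ (by positivity)] at hn
  have h := dg_raw S hv (η / 2 * n) (by positivity)
  rw [← hnn, ← hD] at h
  set d : ℝ := (dg S (Set.Ici (Real.pi / 2)) v : ℝ) with hd
  set N : ℝ := (cnt S (Set.Ici (Real.pi / 2)) : ℝ) with hN
  -- everything divided by `n`
  have e1 : 3 * D * (n + η / 2 * n) ^ 3 = n * (3 * D * n ^ 2 * (1 + η / 2) ^ 3) := by ring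
  have e2 : 3 * (N + η / 2 * n * d) + (3 * n * (η / 2 * n) ^ 2 + (η / 2 * n) ^ 3 + 3 * n ^ 2 +
      9 * (η / 2 * n) * n) = 3 * N + n * (3 * (η / 2) * d + (3 * (η / 2) ^ 2 * n ^ 2 +
        (η / 2) ^ 3 * n ^ 2 + 3 * n + 9 * (η / 2) * n)) := by ring
  have h2 : n * (3 * D * n ^ 2 * (1 + η / 2) ^ 3) ≤ n * (3 * ((D + η ^ 2 / 8) * n ^ 2) +
      (3 * (η / 2) * d + (3 * (η / 2) ^ 2 * n ^ 2 +
        (η / 2) ^ 3 * n ^ 2 + 3 * n + 9 * (η / 2) * n))) := by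
    rw [← e1]
    refine h.trans ?_
    rw [e2]
    have e3 : n * (3 * ((D + η ^ 2 / 8) * n ^ 2) +
      (3 * (η / 2) * d + (3 * (η / 2) ^ 2 * n ^ 2 +
        (η / 2) ^ 3 * n ^ 2 + 3 * n + 9 * (η / 2) * n))) = 3 * ((D + η ^ 2 / 8) * n ^ 3) +
        n * (3 * (η / 2) * d + (3 * (η / 2) ^ 2 * n ^ 2 +
        (η / 2) ^ 3 * n ^ 2 + 3 * n + 9 * (η / 2) * n)) := by ring
    rw [e3]
    linarith
  have h3 := le_of_mul_le_mul_left h2 hn0
  have h4 : 3 * D * n ^ 2 * (1 + 3 * (η / 2)) ≤ 3 * D * n ^ 2 * (1 + η / 2) ^ 3 := by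
    refine mul_le_mul_of_nonneg_left ?_ (by positivity)
    nlinarith [pow_pos hη 2, pow_pos hη 3]
  have h5 : 3 * n + 9 * (η / 2) * n ≤ 8 * n := by nlinarith
  have h6 : 8 * n ≤ η ^ 2 * n ^ 2 := by nlinarith
  have h7 : (η / 2) ^ 3 * n ^ 2 ≤ η ^ 2 / 8 * n ^ 2 := by
    refine mul_le_mul_of_nonneg_right ?_ (by positivity)
    nlinarith [pow_pos hη 2, pow_pos hη 3]
  have h8 : 3 * (η / 2) * (3 * D * n ^ 2) ≤ 3 * (η / 2) * (d + 3 * η * n ^ 2) := by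
    nlinarith [mul_pos (pow_pos hη 2) (pow_pos hn0 2)]
  have h9 := le_of_mul_le_mul_left h8 (by positivity)
  linarith


/-- The second order inequality for all nearly optimal sets. -/
theorem second_of (η : ℝ) (hη : 0 < η) : ∃ ε > 0, ε ≤ η ∧ ∃ n0 : ℕ, ∀ S : Finset Pt, GenPos S →
    n0 ≤ S.card →
    (cnt S (Set.Ici (Real.pi / 2)) : ℝ) ≤
      (dens (Set.Ici (Real.pi / 2)) + ε) * (S.card : ℝ) ^ 3 →
    (∀ p ∈ S, (dg S (Set.Ici (Real.pi / 2)) p : ℝ) ≤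
      3 * (dens (Set.Ici (Real.pi / 2)) + ε) * (S.card : ℝ) ^ 2) →
    ∀ f : Pt → ℝ, (∀ x ∈ S, |f x| ≤ 1) →
      3 * dens (Set.Ici (Real.pi / 2)) * (S.card : ℝ) * (∑ x ∈ S, f x) ^ 2 -
        η * (S.card : ℝ) ^ 3 ≤
      ∑ t ∈ obt S, (f t.1 * f t.2.1 + f t.2.1 * f t.2.2 + f t.1 * f t.2.2) := by
  set D : ℝ := dens (Set.Ici (Real.pi / 2)) with hD
  set δ : ℝ := min (η / 30) (1 / 30) with hδ
  have hδ0 : 0 < δ := by
    rw [hδ]
    exact lt_min (by linarith) (by norm_num)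
  have hδη : δ ≤ η / 30 := min_le_left _ _
  have hδ1 : δ ≤ 1 / 30 := min_le_right _ _
  set ε : ℝ := δ ^ 3 with hε
  have hε0 : 0 < ε := by positivity
  have hεη : ε ≤ η := by
    have : δ ^ 3 ≤ δ := by nlinarith [sq_nonneg δ, mul_pos hδ0 hδ0]
    linarith
  obtain ⟨n1, hn1⟩ := near_opt D ε hε0 hD
  obtain ⟨n2, hn2⟩ := exists_nat_gt (20 / δ ^ 3)
  refine ⟨ε, hε0, hεη, max n1 (max n2 3), ?_⟩
  intro S hS hcard hcnt' hdg'
  have a1 : n1 ≤ S.card := le_trans (le_max_left _ _) hcard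
  have a2 : n2 ≤ S.card := le_trans (le_trans (le_max_left _ _) (le_max_right _ _)) hcard
  have a3 : 3 ≤ S.card := le_trans (le_trans (le_max_right _ _) (le_max_right _ _)) hcard
  have hlow := hn1 S hS a1
  have hD0 : 0 ≤ D := dens_Ici_nonneg
  have hD1 : D ≤ 1 := dens_Ici_le_one
  set n : ℝ := (S.card : ℝ) with hn
  have hn3 : (3 : ℝ) ≤ n := by
    rw [hn]
    exact_mod_cast a3
  have hn20 : 20 ≤ n * δ ^ 3 := by
    have a2' : (n2 : ℝ) ≤ n := by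
      rw [hn]
      exact_mod_cast a2
    have h6 : (20 / δ ^ 3 : ℝ) < n := lt_of_lt_of_le hn2 a2'
    rw [div_lt_iff₀ (by positivity)] at h6
    linarith
  intro f hf
  have h := second_raw S f hf δ hδ0 (by linarith) (D + ε) hdg' D hD
  set Fs : ℝ := ∑ x ∈ S, f x with hFs
  set Q : ℝ := ∑ t ∈ obt S, (f t.1 * f t.2.1 + f t.2.1 * f t.2.2 + f t.1 * f t.2.2) with hQ
  have hFn : |Fs| ≤ n := by
    rw [hFs, hn]
    refine (abs_sum_le_sum_abs _ _).trans ?_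
    refine (sum_le_sum hf).trans (le_of_eq ?_)
    rw [sum_const, nsmul_eq_mul, mul_one]
  have hFn1 := (abs_le.1 hFn).2
  set N : ℝ := (cnt S (Set.Ici (Real.pi / 2)) : ℝ) with hN
  change 3 * D * (n ^ 3 + 3 * n ^ 2 * δ * Fs + 3 * n * δ ^ 2 * Fs ^ 2) ≤
    3 * N + 3 * δ * (3 * (D + ε) * n ^ 2 * Fs + (3 * (D + ε) * n ^ 3 - 3 * N)) +
      3 * δ ^ 2 * Q + 6 * δ ^ 3 * n ^ 3 + 24 * n ^ 2 at h
  -- δ² Q ≥ ...
  have k1 : n ^ 2 * Fs ≤ n ^ 3 := by
    have := mul_le_mul_of_nonneg_left hFn1 (sq_nonneg n)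
    calc n ^ 2 * Fs ≤ n ^ 2 * n := this
      _ = n ^ 3 := by ring
  have k2 : ε * (n ^ 2 * Fs) ≤ ε * n ^ 3 := mul_le_mul_of_nonneg_left k1 hε0.le
  have k3 : δ * (3 * (D + ε) * n ^ 3 - 3 * N) ≤ δ * (6 * ε * n ^ 3) := by
    refine mul_le_mul_of_nonneg_left ?_ hδ0.le
    linarith
  have k4 : δ * (ε * (n ^ 2 * Fs)) ≤ δ * (ε * n ^ 3) := mul_le_mul_of_nonneg_left k2 hδ0.le
  have key : δ ^ 2 * (3 * D * n * Fs ^ 2) ≤ δ ^ 2 * Q + (ε * n ^ 3 + 9 * δ * ε * n ^ 3 +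
      2 * δ ^ 3 * n ^ 3 + 8 * n ^ 2) := by
    have e1 : 3 * D * (n ^ 3 + 3 * n ^ 2 * δ * Fs + 3 * n * δ ^ 2 * Fs ^ 2) =
      3 * D * n ^ 3 + 9 * δ * D * (n ^ 2 * Fs) + 3 * (δ ^ 2 * (3 * D * n * Fs ^ 2)) := by ring
    have e2 : 3 * δ * (3 * (D + ε) * n ^ 2 * Fs + (3 * (D + ε) * n ^ 3 - 3 * N)) =
      9 * δ * D * (n ^ 2 * Fs) + 9 * (δ * (ε * (n ^ 2 * Fs))) +
        3 * (δ * (3 * (D + ε) * n ^ 3 - 3 * N)) := by ring
    rw [e1, e2] at h
    linarith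
  have k5 : 8 * n ^ 2 ≤ δ ^ 3 * n ^ 3 := by
    have : 20 * n ^ 2 ≤ (n * δ ^ 3) * n ^ 2 := mul_le_mul_of_nonneg_right hn20 (sq_nonneg n)
    have e : (n * δ ^ 3) * n ^ 2 = δ ^ 3 * n ^ 3 := by ring
    have := sq_nonneg n
    linarith
  have k6 : ε * n ^ 3 + 9 * δ * ε * n ^ 3 + 2 * δ ^ 3 * n ^ 3 + 8 * n ^ 2 ≤
      δ ^ 2 * (η * n ^ 3) := by
    have hn33 : 0 ≤ n ^ 3 := by positivity
    have e1 : ε * n ^ 3 + 9 * δ * ε * n ^ 3 + 2 * δ ^ 3 * n ^ 3 + 8 * n ^ 2 ≤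
        (13 * δ ^ 3) * n ^ 3 := by
      have e3 : 9 * δ * ε * n ^ 3 ≤ 9 * (δ ^ 3 * n ^ 3) := by
        have : δ * (δ ^ 3 * n ^ 3) ≤ 1 * (δ ^ 3 * n ^ 3) :=
          mul_le_mul_of_nonneg_right (by linarith) (by positivity)
        rw [hε]
        linarith
      rw [hε] at e3 ⊢
      linarith
    have e4 : 13 * δ ^ 3 ≤ δ ^ 2 * η := by
      have : δ ^ 2 * (13 * δ) ≤ δ ^ 2 * η := mul_le_mul_of_nonneg_left (by linarith) (sq_nonneg δ)
      linarith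
    have := mul_le_mul_of_nonneg_right e4 hn33
    linarith
  have key2 : δ ^ 2 * (3 * D * n * Fs ^ 2 - η * n ^ 3) ≤ δ ^ 2 * Q := by linarith
  exact le_of_mul_le_mul_left key2 (by positivity)


/-- **Nearly optimal sets**: general position, no right angles, small count, all degrees nearly
equal to `3 D n²`, and the second order inequality in codegree form. -/
theorem exists_near (η : ℝ) (hη : 0 < η) (n0 : ℕ) :
    ∃ S : Finset Pt, GenPos S ∧ NoRight S ∧ n0 ≤ S.card ∧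
      (cnt S (Set.Ici (Real.pi / 2)) : ℝ) ≤
        (dens (Set.Ici (Real.pi / 2)) + η) * (S.card : ℝ) ^ 3 ∧
      (∀ p ∈ S, (dg S (Set.Ici (Real.pi / 2)) p : ℝ) ≤
        3 * (dens (Set.Ici (Real.pi / 2)) + η) * (S.card : ℝ) ^ 2) ∧
      (∀ p ∈ S, 3 * (dens (Set.Ici (Real.pi / 2)) - η) * (S.card : ℝ) ^ 2 ≤
        dg S (Set.Ici (Real.pi / 2)) p) ∧
      ∀ f : Pt → ℝ, (∀ x ∈ S, |f x| ≤ 1) →
        3 * dens (Set.Ici (Real.pi / 2)) * (S.card : ℝ) * (∑ x ∈ S, f x) ^ 2 -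
          η * (S.card : ℝ) ^ 3 ≤
        ∑ u ∈ S, ∑ v ∈ S, if u ≠ v then (cod S u v : ℝ) * (f u * f v) else 0 := by
  set D : ℝ := dens (Set.Ici (Real.pi / 2)) with hD
  have hD0 : 0 ≤ D := dens_Ici_nonneg
  obtain ⟨ε, hε, hεη, n1, hsec⟩ := second_of η hη
  rw [← hD] at hsec
  set η1 : ℝ := min η 1 with hη1
  have hη10 : 0 < η1 := lt_min hη one_pos
  have hη1η : η1 ≤ η := min_le_left _ _
  have hη11 : η1 ≤ 1 := min_le_right _ _
  set ε1 : ℝ := min ε (η1 ^ 2 / 8) with hε1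
  have hε10 : 0 < ε1 := lt_min hε (by positivity)
  have hε1ε : ε1 ≤ ε := min_le_left _ _
  have hε1η : ε1 ≤ η1 ^ 2 / 8 := min_le_right _ _
  obtain ⟨n2, hn2⟩ := exists_nat_gt (8 / η1 ^ 2)
  obtain ⟨S0, h1, h2, h3, h4⟩ := exists_opt (Set.Ici (Real.pi / 2)) (D + ε1) (by linarith)
    (max (max n0 n1) (max n2 3))
  obtain ⟨S, π, hS, hnr, hcard, hmaps, hcnt, hdg⟩ := exists_pert S0
  have a0 : n0 ≤ S.card := hcard ▸ le_trans (le_trans (le_max_left _ _) (le_max_left _ _)) h2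
  have a1 : n1 ≤ S.card := hcard ▸ le_trans (le_trans (le_max_right _ _) (le_max_left _ _)) h2
  have a2 : n2 ≤ S.card := hcard ▸ le_trans (le_trans (le_max_left _ _) (le_max_right _ _)) h2
  have a3 : 3 ≤ S.card := hcard ▸ le_trans (le_trans (le_max_right _ _) (le_max_right _ _)) h2
  rw [← hcard] at h3 h4
  set n : ℝ := (S.card : ℝ) with hn
  have hn3 : (3 : ℝ) ≤ n := by
    rw [hn]
    exact_mod_cast a3
  have c1 : (n - 1) * (n - 2) ≤ n ^ 2 := by nlinarith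
  have c2 : n * (n - 1) * (n - 2) ≤ n ^ 3 := by
    have := mul_le_mul_of_nonneg_left c1 (show 0 ≤ n by linarith)
    linarith
  have hcnt' : (cnt S (Set.Ici (Real.pi / 2)) : ℝ) ≤ (D + ε1) * n ^ 3 := by
    have h5 : (cnt S (Set.Ici (Real.pi / 2)) : ℝ) ≤ cnt S0 (Set.Ici (Real.pi / 2)) := by
      exact_mod_cast hcnt
    have := mul_le_mul_of_nonneg_left c2 (show 0 ≤ D + ε1 by linarith)
    linarith
  have hdg' : ∀ p ∈ S, (dg S (Set.Ici (Real.pi / 2)) p : ℝ) ≤ 3 * (D + ε1) * n ^ 2 := by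
    intro p hp
    have h5 : (dg S (Set.Ici (Real.pi / 2)) p : ℝ) ≤ dg S0 (Set.Ici (Real.pi / 2)) (π p) := by
      exact_mod_cast hdg p hp
    have h6 := h4 (π p) (hmaps p hp)
    have := mul_le_mul_of_nonneg_left c1 (show 0 ≤ 3 * (D + ε1) by linarith)
    linarith
  have hn2' : 0 ≤ n ^ 2 := sq_nonneg n
  have hn3' : 0 ≤ n ^ 3 := by positivity
  refine ⟨S, hS, hnr, a0, ?_, ?_, ?_, ?_⟩
  · refine hcnt'.trans (mul_le_mul_of_nonneg_right (by linarith) hn3')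
  · intro p hp
    exact (hdg' p hp).trans (mul_le_mul_of_nonneg_right (by linarith) hn2')
  · intro p hp
    have h5 := dg_low η1 hη10 hη11 S (hcnt'.trans (mul_le_mul_of_nonneg_right
      (by linarith) hn3')) (by
        have : (n2 : ℝ) ≤ n := by
          rw [hn]
          exact_mod_cast a2
        linarith) p hp
    exact le_trans (mul_le_mul_of_nonneg_right (by linarith) hn2') h5
  · intro f hf
    rw [← sum_cod' S hS]
    refine hsec S hS a1 (hcnt'.trans (mul_le_mul_of_nonneg_right (by linarith) hn3')) ?_ f hf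
    intro p hp
    exact (hdg' p hp).trans (mul_le_mul_of_nonneg_right (by linarith) hn2')

end Pool.Agent.AKO
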